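import Pool.Agent.V1153.GH.Hyp
import Pool.Agent.Run7.h34.UG.Main

/-!
General hypersurfaces and curves which are highly ramified over hyperplanes.
-/

set_option autoImplicit false

namespace Run7.h34.GK

open MvPolynomial Filter Metric Topology Pool.Agent.H159R3.NV
open Pool.Agent.W602.GT Pool.Agent.W603.BP Pool.Agent.TH152.HY Pool.Agent.W602.Cov
  Pool.Agent.W602.Cov.R
open Run7.h34.OK Run7.h34.UG
open Pool.Agent.V1153.UG (GmBdd)

variable {n : ℕ}

/-- the matrix of the linear forms -/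
def mat (ℓ : Fin (n + 1) → Form n) : Matrix (Fin (n + 1)) (Fin (n + 1)) ℂ :=
  Matrix.of fun i j => ℓ i (Pi.single j 1)

theorem mat_apply (ℓ : Fin (n + 1) → Form n) (v : Fin (n + 1) → ℂ) (i : Fin (n + 1)) :
    (mat ℓ).mulVec v i = ℓ i v := by
  rw [form_eq]
  rfl

theorem mat_unit {ℓ : Fin (n + 1) → Form n} (h : LinearIndependent ℂ ℓ) :
    ∃ B : Matrix (Fin (n + 1)) (Fin (n + 1)) ℂ, mat ℓ * B = 1 ∧ B * mat ℓ = 1 := by
  have h1 : LinearIndependent ℂ (mat ℓ).row := by
    let ψ : Form n →ₗ[ℂ] (Fin (n + 1) → ℂ) :=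
      { toFun := fun φ j => φ (Pi.single j 1)
        map_add' := fun _ _ => rfl
        map_smul' := fun _ _ => rfl }
    have h2 : LinearMap.ker ψ = ⊥ := by
      rw [LinearMap.ker_eq_bot']
      intro φ hφ
      refine LinearMap.ext fun v => ?_
      rw [form_eq]
      refine Finset.sum_eq_zero fun j _ => ?_
      rw [show φ (Pi.single j 1) = 0 from congrFun hφ j, zero_mul]
    exact h.map' ψ h2
  have h2 := Matrix.linearIndependent_rows_iff_isUnit.1 h1
  refine ⟨(mat ℓ)⁻¹, Matrix.mul_nonsing_inv _ ((Matrix.isUnit_iff_isUnit_det _).1 h2),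
    Matrix.nonsing_inv_mul _ ((Matrix.isUnit_iff_isUnit_det _).1 h2)⟩

/-- substitution of linear forms -/
noncomputable def sub (B : Matrix (Fin (n + 1)) (Fin (n + 1)) ℂ)
    (F : MvPolynomial (Fin (n + 1)) ℂ) : MvPolynomial (Fin (n + 1)) ℂ :=
  aeval (fun j => ∑ k, C (B j k) * X k) F

theorem sub_aeval {L : Type} [CommRing L] [Algebra ℂ L] (B : Matrix (Fin (n + 1)) (Fin (n + 1)) ℂ)
    (F : MvPolynomial (Fin (n + 1)) ℂ) (y : Fin (n + 1) → L) :
    aeval y (sub B F) = aeval (fun j => ∑ k, algebraMap ℂ L (B j k) * y k) F := by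
  unfold sub
  rw [← AlgHom.comp_apply, comp_aeval]
  congr 2
  funext j
  rw [map_sum]
  refine Finset.sum_congr rfl fun k _ => ?_
  rw [map_mul, aeval_X, aeval_C]

theorem sub_hom {B : Matrix (Fin (n + 1)) (Fin (n + 1)) ℂ} {F : MvPolynomial (Fin (n + 1)) ℂ}
    {d : ℕ} (hF : F.IsHomogeneous d) : (sub B F).IsHomogeneous d := by
  have h := hF.aeval (fun j => ∑ k, C (B j k) * X k : Fin (n + 1) → MvPolynomial (Fin (n + 1)) ℂ)
    (n := 1) fun j => IsHomogeneous.sum _ _ _ fun k _ => by
      have := (isHomogeneous_C (Fin (n + 1)) (B j k)).mul (isHomogeneous_X ℂ k)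
      rwa [zero_add] at this
  rwa [one_mul] at h

/-- **No special points.** -/
theorem no_group {F : MvPolynomial (Fin (n + 1)) ℂ} {N : ℕ}
    (hF : ∀ P, ¬ GmBdd (Ideal.span {F}) 1 N P) {A B : Matrix (Fin (n + 1)) (Fin (n + 1)) ℂ}
    (hAB : A * B = 1) {y : Fin (n + 1) → ℂ} {w : Fin (n + 1) → ℕ} (hw : ∀ l, w l ≤ N)
    {i j : Fin (n + 1)} (hi : y i ≠ 0) (hj : y j ≠ 0) (hij : w i ≠ w j)
    (h : aeval (fun k => (Polynomial.C (y k) * Polynomial.X ^ w k : Polynomial ℂ)) (sub B F) = 0) :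
    False := by
  classical
  apply hF fun j => ∑ k, algebraMap ℂ (Polynomial ℂ) (B j k) *
    (Polynomial.C (y k) * Polynomial.X ^ w k)
  have hzero : aeval (fun j => ∑ k, algebraMap ℂ (Polynomial ℂ) (B j k) *
      (Polynomial.C (y k) * Polynomial.X ^ w k)) F = 0 := by
    rw [← sub_aeval]
    exact h
  refine ⟨fun j => ?_, ?_, ⟨1, 0, one_ne_zero, by simp⟩, ?_⟩
  · refine Polynomial.natDegree_sum_le_of_forall_le _ _ fun k _ => ?_
    refine (Polynomial.natDegree_C_mul_le _ _).trans ?_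
    exact (Polynomial.natDegree_C_mul_X_pow_le _ _).trans (hw k)
  · intro G hG _
    obtain ⟨H, rfl⟩ := Ideal.mem_span_singleton'.1 hG
    rw [map_mul, hzero, mul_zero]
  · -- not constant
    by_contra hcon
    push Not at hcon
    set P : Fin (n + 1) → Polynomial ℂ := fun j => ∑ k, algebraMap ℂ (Polynomial ℂ) (B j k) *
      (Polynomial.C (y k) * Polynomial.X ^ w k) with hP
    have hev : ∀ t : ℂ, (fun j => (P j).eval t) = B.mulVec fun k => y k * t ^ w k := by
      intro t
      funext j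
      simp only [hP, Polynomial.eval_finsetSum, Polynomial.eval_mul, Polynomial.eval_C,
        Polynomial.eval_pow, Polynomial.eval_X]
      rw [Matrix.mulVec, dotProduct]
      refine Finset.sum_congr rfl fun k _ => ?_
      congr 1
      exact Polynomial.eval_C
    have hback : ∀ t : ℂ, (fun k => y k * t ^ w k) = A.mulVec fun j => (P j).eval t := by
      intro t
      rw [hev, Matrix.mulVec_mulVec, hAB, Matrix.one_mulVec]
    have hcross : ∀ s t : ℂ, (y i * s ^ w i) * (y j * t ^ w j) =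
        (y j * s ^ w j) * (y i * t ^ w i) := by
      intro s t
      have e : ∀ (t : ℂ) k, y k * t ^ w k = ∑ a, A k a * (P a).eval t := fun t k =>
        congrFun (hback t) k
      rw [e, e, e, e, Finset.sum_mul_sum, Finset.sum_mul_sum, Finset.sum_comm]
      refine Finset.sum_congr rfl fun a _ => Finset.sum_congr rfl fun b _ => ?_
      have h1 := hcon s t b a
      linear_combination (A i b * A j a) * h1
    have h2 := hcross 2 1
    simp only [one_pow, mul_one] at h2
    have h3 : (2 : ℂ) ^ w i = 2 ^ w j := by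
      have h4 : y i * y j ≠ 0 := mul_ne_zero hi hj
      apply mul_left_cancel₀ h4
      linear_combination h2
    apply hij
    have h5 : (2 : ℕ) ^ w i = 2 ^ w j := by exact_mod_cast h3
    exact Nat.pow_right_injective le_rfl h5

end Run7.h34.GK
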