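import Pool.Agent.Run7.h34.GK.LogA

/-!
Quasi-projective varieties over the strata of a general hypersurface arrangement.
-/

set_option autoImplicit false

namespace Run7.h34.GK

open MvPolynomial Filter Metric Topology Pool.Agent.H159R3.NV
open Pool.Agent.W602.GT Pool.Agent.W603.BP Pool.Agent.TH152.HY Pool.Agent.W602.Cov
  Pool.Agent.W602.Cov.R Pool.Agent.W602.Cov.G Pool.Agent.W601.PH Pool.Agent.W602.Cov.Cover
open Run7.h34.OK Run7.h34.UG
open Pool.Agent.V1153.UG (GmBdd)

variable {N n q : ℕ}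

/-- **The four properties** from properties of subvarieties and of maps from the punctured disc. -/
theorem four_of {k : ℕ} {ℓ : Fin k → Form n} {X D : BiSet N n}
    (hL : ∀ (L : Type) [Field L] [Algebra ℂ L] (a : Fin (N + 1) → L) (b : Fin (n + 1) → L)
      (r : ℕ), X.Mem a b → ¬ D.Mem a b → (∀ i, lf (ℓ i) b ≠ 0) → Algebra.IsAlgebraic
        (IntermediateField.adjoin ℂ {f : L | ∃ i j, b j ≠ 0 ∧ f = b i / b j}) L →
      Algebra.trdeg ℂ L = r → 0 < r → LogGeneralType ℂ L r (CentreIn D a b))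
    (hP : ∀ u v, QDisc X D u v → (∀ i, ∃ z ∈ ball (0 : ℂ) 1 \ {0}, ℓ i (v z) ≠ 0) → Extends v)
    {K : Type} [Field K] [Algebra ℂ K] {a : Fin (N + 1) → K} {b : Fin (n + 1) → K}
    (hK : X.FunctionField K a b) (halg : Algebra.IsAlgebraic
      (IntermediateField.adjoin ℂ {f : K | ∃ i j, b j ≠ 0 ∧ f = b i / b j}) K)
    {r : ℕ} (htr : Algebra.trdeg ℂ K = r) (hr : 0 < r) (hlb : ∀ i, lf (ℓ i) b ≠ 0)
    (hD : ¬ D.Mem a b) : Four X D K a b r := by
  classical
  choose Dg mm' c hrel using fun i j => exists_rel hK halg i j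
  let R : MvPolynomial (Fin (n + 1)) ℂ :=
    ∏ i : Fin (N + 1), ∏ j : Fin (N + 1), c i j (mm' i j)
  let Q : MvPolynomial (Fin (n + 1)) ℂ := R * ∏ i, li (ℓ i)
  obtain ⟨E, hQh⟩ : ∃ E, Q.IsHomogeneous E :=
    ⟨_, (IsHomogeneous.prod _ _ _ fun i _ => IsHomogeneous.prod _ _ _ fun j _ =>
      (hrel i j).1.hom _ le_rfl).mul (IsHomogeneous.prod _ _ _ fun i _ => li_hom _)⟩
  have hsplit : ∀ {L : Type} [Field L] [Algebra ℂ L] (y : Fin (n + 1) → L), aeval y Q ≠ 0 →
      (∀ i j, aeval y (c i j (mm' i j)) ≠ 0) ∧ ∀ i, lf (ℓ i) y ≠ 0 := by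
    intro L _ _ y hy
    simp only [Q, R, map_mul, map_prod, aeval_li] at hy
    refine ⟨fun i j h0 => hy ?_, fun i h0 => hy ?_⟩
    · rw [Finset.prod_eq_zero (Finset.mem_univ i) (Finset.prod_eq_zero (Finset.mem_univ j) h0),
        zero_mul]
    · rw [Finset.prod_eq_zero (Finset.mem_univ i) h0, mul_zero]
  have hbQ : aeval b Q ≠ 0 := by
    simp only [Q, R, map_mul, map_prod, aeval_li]
    exact mul_ne_zero (Finset.prod_ne_zero_iff.mpr fun i _ =>
      Finset.prod_ne_zero_iff.mpr fun j _ => (hrel i j).2)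
      (Finset.prod_ne_zero_iff.mpr fun i _ => hlb i)
  -- Lang
  have hLang : LangOff X D (rename Sum.inr Q) := by
    intro L _ _ a' b' d hmem hDm hne hgen htr hd
    rw [aeval_inr] at hne
    obtain ⟨h1, h2⟩ := hsplit b' hne
    exact hL L a' b' d hmem hDm h2 (alg_sub (fun i j => (hrel i j).1) hmem h1 hgen) htr hd
  -- Picard
  have hPic : PicardOff X D (rename Sum.inr Q) := by
    rintro u v huv ⟨z0, hz0, hne⟩
    have hu := fun j => an_of_diffOn huv.diffu j
    have hmem : ∀ z ∈ PB 1, QMem X D (u z) (v z) := fun z hz => huv.mem z (mem_disc.mpr hz)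
    have hne' : aeval (v z0) Q ≠ 0 := by
      rw [← aeval_inr (N := N) Q (u z0) (v z0)]
      exact hne
    obtain ⟨h1, h2⟩ := hsplit (v z0) hne'
    have hE : Extends v := hP u v huv fun i => ⟨z0, hz0, by
      rw [form_eq]
      exact h2 i⟩
    exact ⟨extends_lift (X := conv X) hu (fun z hz => (hmem z hz).1) hE (mem_disc.mp hz0)
      (fib_finite (fun i j => (hrel i j).1) h1), hE⟩
  refine ⟨?_, rename Sum.inr Q, 0, E, biHom_rename hQh, ?_, hPic, brody_of_picard hPic, hLang⟩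
  · exact hLang K a b r hK.mem hD (by rw [aeval_inr]; exact hbQ) hK.gen htr hr
  · -- a point of `X - D`
    have h1 : ∃ F ∈ D.eqs, aeval (Sum.elim a b) F ≠ 0 := by
      by_contra hcon
      push Not at hcon
      exact hD ⟨hK.mem.1, hK.mem.2.1, hcon⟩
    obtain ⟨F', hF', hFab⟩ := h1
    obtain ⟨e, e', he⟩ := D.hom F' hF'
    have h2 : BiHom (F' * rename Sum.inr Q : BiPoly N n) (e + 0) (e' + E) := by
      have := IsWeightedHomogeneous.mul he (biHom_rename (N := N) hQh)
      exact this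
    by_contra hcon
    push Not at hcon
    have h3 := (hK.van _ _ _ h2).2 (fun u v huv => by
      rw [map_mul]
      by_cases hFv : eval (Sum.elim u v) F' = 0
      · rw [hFv, zero_mul]
      · rw [hcon u v ⟨huv, fun hd => hFv (hd.2.2 F' hF')⟩, mul_zero])
    rw [map_mul, aeval_inr] at h3
    exact mul_ne_zero hFab hbQ h3

/-- The union of the closed subset `D` of `P^N × P^n` with the preimage of the hypersurface `Q = 0`
of `P^n`. -/
def withHyp (D : BiSet N n) (Q : MvPolynomial (Fin (n + 1)) ℂ) : BiSet N n where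
  eqs := {H | ∃ G ∈ D.eqs, (∃ e, Q.IsHomogeneous e) ∧ H = G * rename Sum.inr Q}
  hom := by
    rintro H ⟨G, hG, ⟨e, he⟩, rfl⟩
    obtain ⟨e1, e2, h⟩ := D.hom G hG
    exact ⟨e1 + 0, e2 + e, IsWeightedHomogeneous.mul h (biHom_rename (N := N) he)⟩

theorem off_of_mem {D : BiSet N n} {Q : MvPolynomial (Fin (n + 1)) ℂ}
    {L : Type} [Field L] [Algebra ℂ L] {a : Fin (N + 1) → L}
    {b : Fin (n + 1) → L} (ha : a ≠ 0) (hb : b ≠ 0) (h : ¬ (withHyp D Q).Mem a b) :
    aeval b Q ≠ 0 := by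
  intro h0
  apply h
  refine ⟨ha, hb, ?_⟩
  rintro _ ⟨G, -, -, rfl⟩
  rw [map_mul, aeval_inr, h0, mul_zero]

/-- the value of a form at the centre -/
theorem off_place {D : BiSet N n} {Q : MvPolynomial (Fin (n + 1)) ℂ} {L : Type} [Field L]
    [Algebra ℂ L] {a : Fin (N + 1) → L} {b : Fin (n + 1) → L} {e : ℕ}
    (hQ : Q.IsHomogeneous e) (P : FF.Place ℂ L) (h : ¬ CentreIn (withHyp D Q) a b P) {c : ℤ}
    (hc : Norm P b c) : aeval b Q ≠ 0 ∧ P.ord (aeval b Q) ≤ e * c := by
  unfold CentreIn at h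
  push Not at h
  obtain ⟨c1, c2, h1, h2, H, ⟨G, hG, hQ', rfl⟩, E, E', hE, hne, hle⟩ := h
  have hcc : c2 = c := by
    obtain ⟨i1, j1, hj1, e1⟩ := h2
    obtain ⟨i2, j2, hj2, e2⟩ := hc
    have h3 := i1 j2 hj2
    have h4 := i2 j1 hj1
    omega
  subst hcc
  rw [map_mul, aeval_inr] at hne hle
  have hG0 := left_ne_zero_of_mul hne
  have hQ0 := right_ne_zero_of_mul hne
  obtain ⟨e1, e2, hGe⟩ := D.hom G hG
  have hH : BiHom (G * rename Sum.inr Q : BiPoly N n) (e1 + 0) (e2 + e) := by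
    have := IsWeightedHomogeneous.mul hGe (biHom_rename (N := N) hQ)
    exact this
  have hH0 : (G * rename Sum.inr Q : BiPoly N n) ≠ 0 := by
    intro h0
    have h3 : aeval (Sum.elim a b) (G * rename Sum.inr Q : BiPoly N n) = 0 := by rw [h0, map_zero]
    rw [map_mul, aeval_inr] at h3
    exact hne h3
  have hEE := IsWeightedHomogeneous.inj_right hH0 hE hH
  have hE1 : E = e1 + 0 := congrArg Prod.fst hEE
  have hE2 : E' = e2 + e := congrArg Prod.snd hEE
  rw [P.ord_mul hG0 hQ0, hE1, hE2] at hle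
  -- the order of `G`
  have hGo : (e1 : ℤ) * c1 + e2 * c2 ≤ P.ord (aeval (Sum.elim a b) G) := by
    have h3 : Pool.Agent.W603.LV.Ge P ((e1 : ℤ) * c1 + e2 * c2) (aeval (Sum.elim a b) G) := by
      rw [aeval_def, eval₂_eq']
      refine Pool.Agent.W603.LV.Ge.sum _ _ fun α hα => ?_
      have h4 := hGe (mem_support_iff.mp hα)
      rw [Finsupp.weight_apply, Finsupp.sum_fintype _ _ (by simp)] at h4
      have h5 := congrArg Prod.fst h4
      have h6 := congrArg Prod.snd h4
      rw [Prod.fst_sum] at h5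
      rw [Prod.snd_sum] at h6
      simp only [Fintype.sum_sum_type, Sum.elim_inl, Sum.elim_inr, Prod.smul_mk, smul_eq_mul,
        mul_one, mul_zero, Finset.sum_const_zero, add_zero, zero_add] at h5 h6
      have h7 : Pool.Agent.W603.LV.Ge P (∑ j, (α (Sum.inl j) : ℤ) * c1)
          (∏ j, a j ^ α (Sum.inl j)) :=
        Pool.Agent.W603.LV.Ge.prod Finset.univ (fun j => a j ^ α (Sum.inl j))
          (fun j => (α (Sum.inl j) : ℤ) * c1) fun j _ => by
            have h8 : Pool.Agent.W603.LV.Ge P c1 (a j) := by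
              by_cases hj : a j = 0
              · exact Or.inl hj
              · exact Or.inr (h1.1 j hj)
            exact h8.pow _
      have h9 : Pool.Agent.W603.LV.Ge P (∑ j, (α (Sum.inr j) : ℤ) * c2)
          (∏ j, b j ^ α (Sum.inr j)) :=
        Pool.Agent.W603.LV.Ge.prod Finset.univ (fun j => b j ^ α (Sum.inr j))
          (fun j => (α (Sum.inr j) : ℤ) * c2) fun j _ => by
            have h8 : Pool.Agent.W603.LV.Ge P c2 (b j) := by
              by_cases hj : b j = 0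
              · exact Or.inl hj
              · exact Or.inr (hc.1 j hj)
            exact h8.pow _
      have h10 := (Pool.Agent.W603.LV.Ge.const (P := P) (coeff α G)).mul (h7.mul h9)
      rw [Fintype.prod_sum_type]
      simp only [Sum.elim_inl, Sum.elim_inr]
      refine h10.mono (le_of_eq ?_)
      rw [zero_add, ← Finset.sum_mul, ← Finset.sum_mul, ← h5, ← h6]
      push_cast
      ring
    exact h3.resolve_left hG0
  refine ⟨hQ0, ?_⟩
  push_cast at hle
  linarith

/-- ramified covers -/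
theorem ram_place {X D : BiSet N n} {m : ℕ} {ℓ : Fin q → Form n} (hram : RamifiedOff X D ℓ m)
    {L : Type} [Field L] [Algebra ℂ L] {a : Fin (N + 1) → L} {b : Fin (n + 1) → L}
    (hmem : X.Mem a b) (hℓ : ∀ i, formK (ℓ i) b ≠ 0) (P : FF.Place ℂ L)
    (hP : ¬ CentreIn D a b P) : RamifiedPlace m ℓ b P := by
  rintro c hc ⟨i, hi, hne⟩
  have hge : ∀ i, c ≤ P.ord (formK (ℓ i) b) := by
    intro i
    have h1 : Pool.Agent.W603.LV.Ge P c (formK (ℓ i) b) := by
      unfold formK
      refine Pool.Agent.W603.LV.Ge.sum _ _ fun k _ => ?_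
      have h2 : Pool.Agent.W603.LV.Ge P c (b k) := by
        by_cases h : b k = 0
        · exact Or.inl h
        · exact Or.inr (hc.1 k h)
      have h3 := (Pool.Agent.W603.LV.Ge.const (P := P) (ℓ i (Pi.single k 1))).mul h2
      rwa [zero_add] at h3
    exact h1.resolve_left (hℓ i)
  obtain ⟨i', hi'⟩ := hram L a b hmem hℓ P hP c
    (fun i => (P.ord (formK (ℓ i) b) - c).toNat) hc (fun i => by
      rw [Int.toNat_of_nonneg (sub_nonneg.2 (hge i))]
      ring) (fun h0 => hne (by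
        have h1 : (P.ord (formK (ℓ i) b) - c).toNat = 0 := congrFun h0 i
        have h2 := hge i
        omega))
  refine ⟨i', hℓ i', ?_⟩
  have h3 := hge i'
  omega

theorem ram_disc {X D : BiSet N n} {m : ℕ} {ℓ : Fin q → Form n} (hram : RamifiedOff X D ℓ m)
    {u : ℂ → Fin (N + 1) → ℂ} {v : ℂ → Fin (n + 1) → ℂ} (huv : QDisc X D u v)
    (hℓ : ∀ i, ∃ z ∈ ball (0 : ℂ) 1 \ {0}, ℓ i (v z) ≠ 0) : RamifiedCurve m ℓ (PB 1) v := by
  rintro z hz ⟨i, -, hi⟩
  have hv := fun j => an_of_diffOn huv.diffv j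
  have hla : ∀ i, AnalyticOnNhd ℂ (fun z => ℓ i (v z)) (PB 1) := fun i z hz =>
    form_an (ℓ i) fun j => hv j z hz
  have hnz : ∀ i, Nz fun z => ℓ i (v z) := by
    intro i
    obtain ⟨z', hz', hne⟩ := hℓ i
    exact nz_of_on (hla i) (mem_disc.1 hz') hne
  have hfin := fun i => ord_ne_top (hla i) (hnz i) hz
  obtain ⟨i', hi'⟩ := disc_mult hram huv hz
    (fun i => (analyticOrderAt (fun z => ℓ i (v z)) z).toNat)
    (fun i => (ENat.natCast_toNat (hfin i)).symm) (fun h0 => by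
      have h1 : (analyticOrderAt (fun z => ℓ i (v z)) z).toNat = 0 := congrFun h0 i
      have h2 : analyticOrderAt (fun z => ℓ i (v z)) z = 0 := by
        rw [← ENat.natCast_toNat (hfin i), h1]
        rfl
      exact ((hla i z hz).analyticOrderAt_eq_zero.1 h2) hi)
  obtain ⟨z', hz', hne⟩ := hℓ i'
  refine ⟨i', ⟨z', mem_disc.1 hz', hne⟩, ?_⟩
  rw [← ENat.natCast_toNat (hfin i')]
  exact_mod_cast hi'

end Run7.h34.GK
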