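import Pool.Agent.Run7.h34.UG.Alg
import Pool.Agent.TH152.DS.Affine

/-!
Families of minimal relations between monomials: uniform positivity of the canonical bundle.
-/

set_option autoImplicit false

open FF MvPolynomial Pool.Agent.W602.GT Pool.Agent.R869 Pool.Agent.R869.Wd Run7.h34.OK
open Pool.Agent.W603.LV hiding tri
open Pool.Agent.W603.GR (exists_min)
open Pool.Agent.TH152.DS (Effective)

namespace Run7.h34.GK

open Run7.h34.UG

variable {K : Type} [Field K] [Algebra ℂ K] {n : ℕ}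

section

variable {y : Fin (n + 1) → K} {s L : ℕ} (A : Fam ℂ y s L)

theorem eff_wt {w : ℕ} (hw : 0 < w) (htr : Algebra.trdeg ℂ K = w)
    (hgen : Algebra.IsAlgebraic (coords ℂ y) K) {Bd : Place ℂ K → Prop}
    (hwide : ∀ P : Place ℂ K, ¬ Bd P → (∃ i ∈ A.I, ∃ j ∈ A.I, P.ord (y i) ≠ P.ord (y j)) →
      ((s * L + 1 : ℕ) : ℤ) ≤ A.comb.X fun j => P.ord (y j)) :
    0 < ∑ l, tri (A.G l).m ∧ Effective K A.wt w Bd y := by
  classical
  obtain ⟨i1, hi1⟩ := A.ne
  have hy1 : y i1 ≠ 0 := (A.hI i1).1 hi1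
  have hy0 : y ≠ 0 := fun h => hy1 (congrFun h i1)
  obtain ⟨tb, htb, htb2⟩ := basis_in htr A.rts (A.rts_alg hgen)
  choose la ia ib hab using htb2
  -- the derivation
  obtain ⟨lam, hlam⟩ := exists_lam ℂ w
  obtain ⟨D0, hD0⟩ := exists_der tb htb (fun j => algebraMap ℂ K (lam j) * tb j)
  have ht0 : ∀ j, tb j ≠ 0 := fun j => by
    rw [hab]
    exact div_ne_zero (A.T_ne _ _) (A.T_ne _ _)
  have hconst : ∀ h, D0 h = 0 → ∃ c : ℂ, h = algebraMap ℂ K c := fun h hh =>
    const_of_der tb htb lam hlam D0 hD0 hh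
  have hpt : (∏ j, tb j) ≠ 0 := Finset.prod_ne_zero_iff.2 fun j _ => ht0 j
  have hGK : A.GK D0 ≠ 0 := A.GK_ne hconst
  have hpos : 0 < ∑ l, tri (A.G l).m := by
    rw [Nat.pos_iff_ne_zero]
    intro h1
    have h2 := (Finset.sum_eq_zero_iff.1 h1) (la ⟨0, hw⟩) (Finset.mem_univ _)
    have h3 : (A.G (la ⟨0, hw⟩)).m ≤ 1 := by
      by_contra hcon
      rw [tri, Finset.sum_eq_zero_iff] at h2
      have := h2 ⟨1, by omega⟩ (Finset.mem_univ _)
      simp at this
    set l := la ⟨0, hw⟩ with hl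
    obtain ⟨c, hc⟩ := ratio_const (k := ℂ) h3 (cmem (A.G l))
      (fun i => smul_ne_zero ((A.G l).c_ne i) (A.T_ne l i)) (cmem_sum (A.G l)) (ia ⟨0, hw⟩)
      (ib ⟨0, hw⟩)
    have h4 := htb.1.transcendental ⟨0, hw⟩
    apply h4
    have ca := (A.G l).c_ne (ia ⟨0, hw⟩)
    have cb := (A.G l).c_ne (ib ⟨0, hw⟩)
    have ca' : algebraMap ℂ K ((A.G l).c (ia ⟨0, hw⟩)) ≠ 0 := (map_ne_zero _).2 ca
    have cb' : algebraMap ℂ K ((A.G l).c (ib ⟨0, hw⟩)) ≠ 0 := (map_ne_zero _).2 cb
    have h5 : tb ⟨0, hw⟩ = algebraMap ℂ K (c * (A.G l).c (ib ⟨0, hw⟩) /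
        (A.G l).c (ia ⟨0, hw⟩)) := by
      unfold cmem at hc
      rw [Algebra.smul_def, Algebra.smul_def] at hc
      rw [hab, map_div₀, map_mul, ← hc]
      have hr := A.T_ne l (ib ⟨0, hw⟩)
      field_simp
      exact mul_div_cancel_right₀ _ hr
    rw [h5]
    exact isAlgebraic_algebraMap _
  refine ⟨hpos, ?_⟩
  set N := A.wt with hN
  set κ := A.I.card with hκ
  have hκ0 : 0 < κ := Finset.card_pos.2 A.ne
  have hHge : ∀ (P : Place ℂ K) (i0 : Fin (n + 1)), (∀ i, y i ≠ 0 → P.ord (y i0) ≤ P.ord (y i)) →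
      ∀ j, Ge P (κ * P.ord (y i0)) (y j * y i1 ^ (κ - 1)) := by
    intro P i0 hmin j
    have hyc : ∀ i, Ge P (P.ord (y i0)) (y i) := fun i => by
      by_cases h : y i = 0
      · exact Or.inl h
      · exact Or.inr (hmin i h)
    refine ((hyc _).mul ((hyc i1).pow (κ - 1))).mono (le_of_eq ?_)
    rw [Nat.cast_sub (by omega : 1 ≤ κ)]
    push_cast
    ring
  have hPhi : A.Phi ≠ 0 := inv_ne_zero A.Phi_aux
  let g : K := y i1 ^ (κ - 1) * A.Phi * A.GK D0 / (∏ j, tb j) ^ N
  have hg0 : g ≠ 0 := div_ne_zero (mul_ne_zero (mul_ne_zero (pow_ne_zero _ hy1) hPhi) hGK)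
    (pow_ne_zero _ hpt)
  have hkey : ∀ (D : Fin w → Derivation ℂ K K) (j : Fin (n + 1)),
      form tb N g D * y j = y j * y i1 ^ (κ - 1) * A.Phi * A.GK (con tb lam D) := by
    intro D j
    have h1 : con tb lam D = (lmat tb D).det • D0 := by
      apply der_ext tb htb
      intro l
      rw [con_t tb lam D ht0 l, Derivation.coe_smul, Pi.smul_apply, hD0, smul_eq_mul]
      ring
    have h2 : (Matrix.of fun i j => D i (tb j)).det = (∏ j, tb j) * (lmat tb D).det := by
      rw [← Matrix.det_mul_row]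
      congr 1
      ext i j
      simp only [Matrix.of_apply, lmat]
      have := ht0 j
      field_simp
    unfold form
    rw [h1, A.GK_smul, h2, mul_pow, ← hN]
    simp only [g]
    field_simp
  refine ⟨form tb N g, form_pluri tb N g, ?_, ?_, ?_⟩
  · obtain ⟨D, hD⟩ := exists_dual htb
    refine ⟨D, ?_⟩
    unfold form
    rw [hD, Matrix.det_one, one_pow, mul_one]
    exact hg0
  · -- logarithmic poles
    intro P _ j D hD
    obtain ⟨i0, h0, hmin⟩ := exists_min P hy0
    change P.Reg (form tb N g D * y j)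
    rw [hkey, reg_iff_ge]
    have hE : ∀ x : K, x ≠ 0 → Ge P (-0) (con tb lam D x / x) := fun x hx => by
      rw [neg_zero]
      exact con_log tb lam D hD x
    exact A.est0 h0 (E := con tb lam D) (fun l i => WK_log hE (A.G l) i) (hHge P i0 hmin j)
  · -- regularity
    intro P _ hP j D hD
    obtain ⟨i0, h0, hmin⟩ := exists_min P hy0
    change P.Reg (form tb N g D * y j)
    rw [hkey, reg_iff_ge]
    by_cases hall : ∃ i ∈ A.I, ∃ j ∈ A.I, P.ord (y i) ≠ P.ord (y j)
    · have hE : ∀ x : K, x ≠ 0 → Ge P (-1) (con tb lam D x / x) := fun x hx =>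
        con_pole tb lam D hD ht0 hx
      refine A.est1 h0 (E := con tb lam D) (fun l i => WK_log hE (A.G l) i)
        (hwide P hP hall) (hHge P i0 hmin j)
    · push Not at hall
      -- all monomials in a relation have the same order
      have hTo : ∀ l (i : Fin ((A.G l).m + 1)),
          P.ord (mon y ((A.G l).e i)) = A.d l * P.ord (y i1) := by
        intro l i
        rw [mon_ord P fun j hj => A.supp' l i j hj]
        unfold wgt
        have h1 : ∀ j, (((A.G l).e i) j : ℤ) * P.ord (y j) =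
            (((A.G l).e i) j : ℤ) * P.ord (y i1) := by
          intro j
          by_cases hj : j ∈ A.I
          · rw [hall j hj i1 hi1]
          · rw [A.supp l i j hj, Nat.cast_zero, zero_mul, zero_mul]
        rw [Finset.sum_congr rfl fun j _ => h1 j, ← Finset.sum_mul]
        congr 1
        exact_mod_cast A.deg l i
      have ht0' : ∀ j, P.ord (tb j) = 0 := by
        intro j
        rw [hab, P.ord_div (A.T_ne _ _) (A.T_ne _ _), hTo, hTo, sub_self]
      have hE := con_reg tb lam D hD ht0 ht0'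
      refine A.est0 h0 (E := con tb lam D) (fun l i => ?_) (hHge P i0 hmin j)
      rw [zero_mul, sub_zero]
      -- restrict to the members of the relation
      have h1 := WK_reg (T := fun i : Fin ((A.G l).m + 1) => mon y ((A.G l).e i)) hE
        (A.T_ne l 0) (fun i => by rw [hTo, hTo])
        ⟨(A.G l).m, id, Function.injective_id, (A.G l).c, (A.G l).c_ne, (A.G l).rel, (A.G l).li⟩ i
      exact h1

end

/-- the uniform multiple of the canonical bundle -/
noncomputable def RR (n d : ℕ) : ℕ :=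
  (ss n d).factorial * ((n + 1) * MM n d * (ss n d * (n * tri (ss n d - 1)) + 1) + 1) *
    (n * tri (ss n d - 1)).factorial

theorem RR_pos (n d : ℕ) : 0 < RR n d :=
  Nat.mul_pos (Nat.mul_pos (Nat.factorial_pos _) (Nat.succ_pos _)) (Nat.factorial_pos _)

/-- **Uniform positivity for varieties with highly ramified coordinates.** -/
theorem weights_eff {ι : Type} {F : ι → MvPolynomial (Fin (n + 1)) ℂ} {d : ℕ}
    (hF : ∀ e, IsForm (F e)) (hd : ∀ e, (F e).totalDegree ≤ d)
    {w : ℕ} (hw : 0 < w) (htr : Algebra.trdeg ℂ K = w) {y : Fin (n + 1) → K} (hy : y ≠ 0)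
    (hgen : Algebra.IsAlgebraic (coords ℂ y) K) (hyF : ∀ e, val y (F e) = 0)
    {Bd : Place ℂ K → Prop}
    (hram : ∀ P : Place ℂ K, ¬ Bd P → ∀ i j, y i ≠ 0 → y j ≠ 0 → P.ord (y i) ≠ P.ord (y j) →
      ∃ i' j', y i' ≠ 0 ∧ y j' ≠ 0 ∧ (mm n d : ℤ) ≤ P.ord (y i') - P.ord (y j'))
    (hgt : ¬ Effective K (RR n d) w Bd y) : ∃ b, Bad F y b := by
  classical
  by_contra hcon
  push Not at hcon
  apply hgt
  set I : Finset (Fin (n + 1)) := Finset.univ.filter fun j => y j ≠ 0 with hIdef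
  have hI : ∀ j, j ∈ I ↔ y j ≠ 0 := fun j => by simp [hIdef]
  obtain ⟨i1, hi1⟩ := Function.ne_iff.1 hy
  have hsupp : ∀ e, ∀ α ∈ (F e).support, α ∈ DD n d := by
    intro e α hα
    rw [mem_DD]
    have h1 := (le_totalDegree hα).trans (hd e)
    rwa [Finsupp.sum_fintype _ _ (fun _ => rfl)] at h1
  have hs : ∀ e, (F e).support.card ≤ ss n d := fun e => Finset.card_le_card (hsupp e)
  obtain ⟨r, G, a, b, e, hr, hG, hm, hpos, hM⟩ := select (mon y) F hF hs I (fun e => by
    rw [← val_supp (k := ℂ) hI, ← val_eq_sum]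
    exact hyF e) (by
    rintro b ⟨i, hi, j, hj, hij⟩
    have h0 := hcon b
    unfold Bad at h0
    push Not at h0
    obtain ⟨e, v, h⟩ := h0 ⟨i, j, (hI i).1 hi, (hI j).1 hj, hij⟩
    refine ⟨e, v, ?_⟩
    rw [Finset.filter_filter]
    rw [val_wc, val_supp (k := ℂ) hI, Finset.filter_filter] at h
    have e1 : (F e).support.filter (fun α => (∀ j, j ∉ I → α j = 0) ∧ wgt b α = v) =
        (F e).support.filter (fun α => (∑ j, (α j : ℤ) * b j = v) ∧ ∀ j, j ∉ I → α j = 0) := by
      refine Finset.filter_congr fun α _ => ?_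
      constructor
      · rintro ⟨h1, h2⟩
        exact ⟨h2, h1⟩
      · rintro ⟨h1, h2⟩
        exact ⟨h2, h1⟩
    rw [e1]
    exact h)
  have hdeg : ∀ l, ∃ d, ∀ α ∈ (F (e l)).support, ∑ j, α j = d := fun l => exp_total (hF (e l))
  choose dd hdd using hdeg
  have hM' := unif' n d r (fun l => ((G l).e (a l), (G l).e (b l))) I hr
    (fun l => ⟨hsupp _ _ (hG l _).1, hsupp _ _ (hG l _).1⟩) hM
  let A : Fam ℂ y (ss n d) (n * tri (ss n d - 1)) :=
    { I := I
      ne := ⟨i1, (hI i1).2 hi1⟩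
      r := r
      G := G
      a := a
      b := b
      d := dd
      M := MM n d
      deg := fun l i => hdd l _ (hG l i).1
      supp := fun l i j hj => (hG l i).2 j hj
      pos := ss_pos n d
      size := hm
      tot := tri_le_mul hr _ hm
      full := hM'
      hI := hI }
  obtain ⟨hpw, heff⟩ := eff_wt A hw htr hgen (Bd := Bd) fun P hP hne => by
    obtain ⟨i, hi, j, hj, hij⟩ := hne
    obtain ⟨i', j', hi', hj', hle⟩ := hram P hP i j ((hI i).1 hi) ((hI j).1 hj) hij
    have h1 := A.comb.diff_le (fun j => P.ord (y j)) (i := i') (j := j') ((hI i').2 hi')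
      ((hI j').2 hj')
    have h2 : (mm n d : ℤ) ≤ (MM n d : ℤ) * A.comb.X fun j => P.ord (y j) := hle.trans h1
    by_contra hlt
    push Not at hlt
    have h3 : (MM n d : ℤ) * (A.comb.X fun j => P.ord (y j)) ≤
        (MM n d : ℤ) * ((ss n d * (n * tri (ss n d - 1)) + 1 : ℕ) : ℤ) :=
      mul_le_mul_of_nonneg_left hlt.le (Nat.cast_nonneg _)
    have h4 : (mm n d : ℤ) = (MM n d : ℤ) * ((ss n d * (n * tri (ss n d - 1)) + 1 : ℕ) : ℤ) + 1 := by
      unfold mm
      push_cast
      ring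
    omega
  obtain ⟨c, hc⟩ : ∑ l, tri (A.G l).m ∣ (n * tri (ss n d - 1)).factorial :=
    Nat.dvd_factorial hpw A.tot
  have hc0 : 0 < c := by
    rcases Nat.eq_zero_or_pos c with h | h
    · rw [h, mul_zero] at hc
      exact absurd hc (Nat.factorial_ne_zero _)
    · exact h
  have h1 : RR n d = A.wt * c := by
    have h2 : A.wt = (ss n d).factorial *
        ((n + 1) * MM n d * (ss n d * (n * tri (ss n d - 1)) + 1) + 1) * ∑ l, tri (A.G l).m := rfl
    rw [h2, mul_assoc, ← hc]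
    rfl
  rw [h1]
  exact heff.pow hi1 hc0

end Run7.h34.GK
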