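import Pool.Agent.Run7.h34.GK.Cov

/-!
General hypersurface arrangements: the final statements.
-/

set_option autoImplicit false

namespace Run7.h34.GK

open MvPolynomial Filter Metric Topology Pool.Agent.H159R3.NV
open Pool.Agent.W602.GT Pool.Agent.W603.BP Pool.Agent.TH152.HY Pool.Agent.W602.Cov
  Pool.Agent.W602.Cov.R Pool.Agent.W602.Cov.G Pool.Agent.W601.PH Pool.Agent.W602.Cov.Cover
open Run7.h34.OK Run7.h34.UG
open Pool.Agent.V1153.UG (GmBdd)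
open Pool.Agent.TH182.VD (CI)

variable {N n q : ℕ}

/-- orders of the values of forms -/
theorem ge_form' {L : Type} [Field L] [Algebra ℂ L] (P : FF.Place ℂ L) {b : Fin (n + 1) → L}
    {c0 : ℤ} (hb : ∀ j, Pool.Agent.W603.LV.Ge P c0 (b j)) {G : MvPolynomial (Fin (n + 1)) ℂ}
    {e : ℕ} (hG : G.IsHomogeneous e) : Pool.Agent.W603.LV.Ge P (e * c0) (aeval b G) := by
  rw [aeval_def, eval₂_eq']
  refine Pool.Agent.W603.LV.Ge.sum _ _ fun α hα => ?_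
  have h4 : ∑ j, α j = e := by
    have := hG (mem_support_iff.mp hα)
    rw [Finsupp.weight_apply, Finsupp.sum_fintype] at this
    · simpa using this
    · simp
  have h1 : Pool.Agent.W603.LV.Ge P (∑ j, (α j : ℤ) * c0) (∏ j, b j ^ α j) :=
    Pool.Agent.W603.LV.Ge.prod Finset.univ (fun j => b j ^ α j) (fun j => (α j : ℤ) * c0)
      fun j _ => (hb j).pow _
  have h2 := (Pool.Agent.W603.LV.Ge.const (P := P) (coeff α G)).mul h1
  refine h2.mono (le_of_eq ?_)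
  rw [← Finset.sum_mul, ← h4]
  push_cast
  ring

section

variable {F : Fin q → MvPolynomial (Fin (n + 1)) ℂ} {d E : Fin q → ℕ} {D : ℕ} (hD : 1 ≤ D)
  (hF : ∀ i, (F i).IsHomogeneous (d i)) (hE : ∀ i, d i * E i = D) {Z : Finset (Fin q)}
  (hGm : ∀ P, ¬ GmBdd (Ideal.span {G | ∃ i ∈ Z, G = F i}) (∏ i ∈ Finset.univ \ Z, F i)
    (BB (nj n q D) 2) P) {ℓ : Fin (n + 1) → Form n} (hℓ : LinearIndependent ℂ ℓ)
  {X Δ : BiSet N n} (hX : ∀ u v, X.Mem u v → ∀ i ∈ Z, eval v (F i) = 0)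
  (hram : RamifiedOff X (withHyp Δ (∏ i ∈ Finset.univ \ Z, F i)) ℓ (mm (nj n q D) 2))

include hD hF hE hGm hℓ hX hram

/-- maps from the punctured disc -/
theorem cov_disc {u : ℂ → Fin (N + 1) → ℂ} {v : ℂ → Fin (n + 1) → ℂ}
    (huv : QDisc X (withHyp Δ (∏ i ∈ Finset.univ \ Z, F i)) u v)
    (hℓv : ∀ i, ∃ z ∈ ball (0 : ℂ) 1 \ {0}, ℓ i (v z) ≠ 0) : Extends v := by
  classical
  have hmem : ∀ z ∈ PB 1, QMem X (withHyp Δ (∏ i ∈ Finset.univ \ Z, F i)) (u z) (v z) :=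
    fun z hz => huv.mem z (mem_disc.mpr hz)
  refine log_disc hD hF hE hGm hℓ (an_of_diffOn huv.diffv) (fun z hz => (hmem z hz).1.2.1)
    (fun z hz => hX _ _ (hmem z hz).1) (fun z hz i hi h0 => ?_) (ram_disc hram huv hℓv)
  have h1 := off_of_mem (hmem z hz).1.1 (hmem z hz).1.2.1 (hmem z hz).2
  rw [map_prod] at h1
  exact Finset.prod_ne_zero_iff.1 h1 i (Finset.mem_sdiff.2 ⟨Finset.mem_univ _, hi⟩) h0

/-- entire curves -/
theorem cov_entire {u : ℂ → Fin (N + 1) → ℂ} {v : ℂ → Fin (n + 1) → ℂ}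
    (huv : QEntire X (withHyp Δ (∏ i ∈ Finset.univ \ Z, F i)) u v)
    (hℓv : ∀ i, ∃ z, ℓ i (v z) ≠ 0) (z z' : ℂ) : ∃ c : ℂ, v z = c • v z' := by
  by_contra hcon
  push Not at hcon
  apply sin_not huv.diffv (fun z => (huv.mem z).1.2.1) ⟨z, z', hcon⟩
  refine cov_disc hD hF hE hGm hℓ hX hram (u := fun w => u (Complex.sin w⁻¹))
    ⟨sin_diff huv.diffu, sin_diff huv.diffv, fun w _ => huv.mem _⟩ fun i => ?_
  obtain ⟨z1, hz1⟩ := hℓv i
  obtain ⟨w, hw, hwz⟩ := sin_point z1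
  exact ⟨w, hw, by simp only [hwz]; exact hz1⟩

/-- subvarieties -/
theorem cov_lgt {L : Type} [Field L] [Algebra ℂ L] {a : Fin (N + 1) → L} {b : Fin (n + 1) → L}
    {r : ℕ} (hmem : X.Mem a b) (hoff : ¬ (withHyp Δ (∏ i ∈ Finset.univ \ Z, F i)).Mem a b)
    (hℓb : ∀ i, lf (ℓ i) b ≠ 0) (halg : Algebra.IsAlgebraic
      (IntermediateField.adjoin ℂ {f : L | ∃ i j, b j ≠ 0 ∧ f = b i / b j}) L)
    (htr : Algebra.trdeg ℂ L = r) (hr : 0 < r) :
    LogGeneralType ℂ L r (CentreIn (withHyp Δ (∏ i ∈ Finset.univ \ Z, F i)) a b) := by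
  classical
  have hQh : (∏ i ∈ Finset.univ \ Z, F i).IsHomogeneous (∑ i ∈ Finset.univ \ Z, d i) :=
    IsHomogeneous.prod _ _ _ fun i _ => hF i
  have hQ := off_of_mem hmem.1 hmem.2.1 hoff
  rw [map_prod] at hQ
  have hbZ' : ∀ i ∉ Z, aeval b (F i) ≠ 0 := fun i hi =>
    Finset.prod_ne_zero_iff.1 hQ i (Finset.mem_sdiff.2 ⟨Finset.mem_univ _, hi⟩)
  refine log_lgt hD hF hE hGm hℓ hmem.2.1 (fun i hi => ?_) hbZ' hr htr halg
    (fun P hP => ram_place hram hmem hℓb P hP) (fun P hP c hc i hi => ?_)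
  · have h1 := null (G := rename Sum.inr (F i)) (fun u v huv => by
      rw [eval_rename]
      exact hX u v huv i hi) hmem
    rwa [aeval_inr] at h1
  · obtain ⟨-, h1⟩ := off_place hQh P hP hc
    have hge : ∀ i, i ∉ Z → (d i : ℤ) * c ≤ P.ord (aeval b (F i)) := by
      intro i hi
      have h2 := ge_form' P (b := b) (c0 := c) (fun j => by
        by_cases hj : b j = 0
        · exact Or.inl hj
        · exact Or.inr (hc.1 j hj)) (hF i)
      exact h2.resolve_left (hbZ' i hi)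
    rw [map_prod, ord_prod' P _ _ fun i hi => hbZ' i (Finset.mem_sdiff.1 hi).2] at h1
    push_cast at h1
    rw [Finset.sum_mul] at h1
    have hiS : i ∈ Finset.univ \ Z := Finset.mem_sdiff.2 ⟨Finset.mem_univ _, hi⟩
    rw [← Finset.add_sum_erase _ _ hiS, ← Finset.add_sum_erase _ _ hiS] at h1
    have h3 : ∑ j ∈ (Finset.univ \ Z).erase i, (d j : ℤ) * c ≤
        ∑ j ∈ (Finset.univ \ Z).erase i, P.ord (aeval b (F j)) :=
      Finset.sum_le_sum fun j hj => hge j (Finset.mem_sdiff.1 (Finset.mem_of_mem_erase hj)).2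
    have h4 := hge i hi
    linarith

/-- **The four properties.** -/
theorem cov_four {K : Type} [Field K] [Algebra ℂ K] {a : Fin (N + 1) → K} {b : Fin (n + 1) → K}
    (hK : X.FunctionField K a b) (halg : Algebra.IsAlgebraic
      (IntermediateField.adjoin ℂ {f : K | ∃ i j, b j ≠ 0 ∧ f = b i / b j}) K)
    {r : ℕ} (htr : Algebra.trdeg ℂ K = r) (hr : 0 < r) (hlb : ∀ i, lf (ℓ i) b ≠ 0)
    (hoff : ¬ (withHyp Δ (∏ i ∈ Finset.univ \ Z, F i)).Mem a b) :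
    Four X (withHyp Δ (∏ i ∈ Finset.univ \ Z, F i)) K a b r :=
  four_of (fun _ _ _ _ _ _ h1 h2 h3 h4 h5 h6 => cov_lgt hD hF hE hGm hℓ hX hram h1 h2 h3 h4 h5 h6)
    (fun _ _ h1 h2 => cov_disc hD hF hE hGm hℓ hX hram h1 h2) hK halg htr hr hlb hoff

end

/-- the common multiple of the degrees -/
def dd (d : Fin q → ℕ) : ℕ := ∏ i, d i

/-- the required order of ramification -/
noncomputable def mlog (n q : ℕ) (d : Fin q → ℕ) : ℕ := mm (nj n q (dd d)) 2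

theorem dd_pos {d : Fin q → ℕ} (hd : ∀ i, 1 ≤ d i) : 1 ≤ dd d :=
  Nat.one_le_iff_ne_zero.2 (Finset.prod_ne_zero_iff.2 fun i _ => by have := hd i; omega)

theorem dd_mul (d : Fin q → ℕ) (i : Fin q) : d i * ∏ j ∈ Finset.univ.erase i, d j = dd d :=
  Finset.mul_prod_erase _ _ (Finset.mem_univ i)

/-- general arrangements -/
theorem exists_phi (n q : ℕ) (d : Fin q → ℕ) : ∃ Φ : MvPolynomial (CI n d) ℂ, Φ ≠ 0 ∧
    ∀ F : Fin q → MvPolynomial (Fin (n + 1)) ℂ, (∀ i, (F i).IsHomogeneous (d i)) →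
      eval (fun x : CI n d => coeff x.2.1 (F x.1)) Φ ≠ 0 →
      ∀ Z : Finset (Fin q), 2 * n + 1 ≤ ∑ i, d i + Z.card →
      ∀ P, ¬ GmBdd (Ideal.span {G | ∃ i ∈ Z, G = F i}) (∏ i ∈ Finset.univ \ Z, F i)
        (BB (nj n q (dd d)) 2) P := by
  classical
  have h : ∀ Z : Finset (Fin q), ∃ Φ : MvPolynomial (CI n d) ℂ, Φ ≠ 0 ∧
      (2 * n + 1 ≤ ∑ i, d i + Z.card → ∀ F : Fin q → MvPolynomial (Fin (n + 1)) ℂ,
        (∀ i, (F i).IsHomogeneous (d i)) →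
        eval (fun x : CI n d => coeff x.2.1 (F x.1)) Φ ≠ 0 →
        ∀ P, ¬ GmBdd (Ideal.span {G | ∃ i ∈ Z, G = F i}) (∏ i ∈ Finset.univ \ Z, F i)
          (BB (nj n q (dd d)) 2) P) := by
    intro Z
    by_cases hZ : 2 * n + 1 ≤ ∑ i, d i + Z.card
    · obtain ⟨Φ, h1, h2⟩ := Pool.Agent.V1153.GH.general d Z hZ (BB (nj n q (dd d)) 2)
      exact ⟨Φ, h1, fun _ => h2⟩
    · exact ⟨1, one_ne_zero, fun h => absurd h hZ⟩
  choose Φ h1 h2 using h
  refine ⟨∏ Z, Φ Z, Finset.prod_ne_zero_iff.2 fun Z _ => h1 Z, fun F hF hΦ Z hZ => ?_⟩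
  rw [map_prod] at hΦ
  exact h2 Z hZ F hF (Finset.prod_ne_zero_iff.1 hΦ Z (Finset.mem_univ _))

end Run7.h34.GK
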