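import Pool.Agent.Run7.h34.GK.Eff
import Pool.Agent.Run7.h34.GK.Fin

/-!
The strata of hypersurface arrangements without curves of the multiplicative group of bounded
degree: uniform positivity of the canonical bundle, and degrees of curves.
-/

set_option autoImplicit false

namespace Run7.h34.GK

open MvPolynomial Filter Metric Topology Pool.Agent.H159R3.NV
open Pool.Agent.W602.GT Pool.Agent.W603.BP Pool.Agent.TH152.HY Pool.Agent.W602.Cov
  Pool.Agent.W602.Cov.R Pool.Agent.W602.Cov.G Pool.Agent.W601.PH Pool.Agent.W602.Cov.Cover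
open Run7.h34.OK Run7.h34.UG
open Pool.Agent.V1153.UG (GmBdd)
open Pool.Agent.TH152.DS (Effective)

variable {N n q : ℕ}

theorem eff_of_yv {L : Type} [Field L] [Algebra ℂ L] {D : ℕ} (hD : 1 ≤ D)
    {F : Fin q → MvPolynomial (Fin (n + 1)) ℂ} {E : Fin q → ℕ} {x b : Fin (n + 1) → L}
    {B : Matrix (Fin (n + 1)) (Fin (n + 1)) ℂ}
    (hxb : ∀ j, b j = ∑ k, algebraMap ℂ L (B j k) * x k) (hb : b ≠ 0) {R w : ℕ}
    {Bd : FF.Place ℂ L → Prop} (h : Effective L R w Bd (yv D F E x)) : Effective L R w Bd b := by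
  classical
  obtain ⟨j0, hj0⟩ := Function.ne_iff.1 hb
  have hj0' : b j0 ≠ 0 := hj0
  obtain ⟨lin, hlindef⟩ : ∃ lin : Fin (n + 1) → MvPolynomial (Fin (n + 1)) ℂ,
    lin = fun j => ∑ k, C (B j k) * X k := ⟨_, rfl⟩
  have hlin : ∀ j, (lin j).IsHomogeneous 1 := by
    intro j
    rw [hlindef]
    refine IsHomogeneous.sum _ _ _ fun k _ => ?_
    have := (isHomogeneous_C (Fin (n + 1)) (B j k)).mul (isHomogeneous_X ℂ k)
    rwa [zero_add] at this
  have hG : ∀ j, (lin j0 ^ (D - 1) * lin j).IsHomogeneous D := by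
    intro j
    have h1 := ((hlin j0).pow (D - 1)).mul (hlin j)
    rwa [one_mul, Nat.sub_add_cancel hD] at h1
  have hval : ∀ j, aeval x (lin j) = b j := by
    intro j
    rw [hlindef, hxb, map_sum]
    refine Finset.sum_congr rfl fun k _ => ?_
    rw [map_mul, aeval_X, aeval_C]
  have h1 : Effective L R w Bd (fun j => b j0 ^ (D - 1) * b j) := by
    refine Pool.Agent.TH152.DS.Effective.lin h (fun j k => Sum.elim
      (fun α => coeff α.1 (lin j0 ^ (D - 1) * lin j)) (fun _ => 0) (ej n q D k)) fun j => ?_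
    have h2 := form_sum (hG j) x
    rw [map_mul, map_pow, hval, hval] at h2
    rw [h2, ← Equiv.sum_comp (ej n q D).symm, Fintype.sum_sum_type]
    simp only [Equiv.apply_symm_apply, Sum.elim_inl, Sum.elim_inr, zero_smul,
      Finset.sum_const_zero, add_zero]
    refine Finset.sum_congr rfl fun α _ => ?_
    rw [yv_symm, Algebra.smul_def]
    rfl
  obtain ⟨ω, h2, ⟨D0, h3⟩, h4, h5⟩ := h1
  refine ⟨fun E => ω E * b j0 ^ (D - 1), ?_, ⟨D0, mul_ne_zero h3 (pow_ne_zero _ hj0')⟩, ?_, ?_⟩
  · intro M E
    change ω _ * b j0 ^ (D - 1) = _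
    rw [h2 M E]
    ring
  · intro P hP j E hE
    have h6 := h4 P hP j E hE
    change P.Reg (ω E * (b j0 ^ (D - 1) * b j)) at h6
    change P.Reg (ω E * b j0 ^ (D - 1) * b j)
    rwa [mul_assoc]
  · intro P hP hB j E hE
    have h6 := h5 P hP hB j E hE
    change P.Reg (ω E * (b j0 ^ (D - 1) * b j)) at h6
    change P.Reg (ω E * b j0 ^ (D - 1) * b j)
    rwa [mul_assoc]

section

variable {F : Fin q → MvPolynomial (Fin (n + 1)) ℂ} {d E : Fin q → ℕ} {D : ℕ} (hD : 1 ≤ D)
  (hF : ∀ i, (F i).IsHomogeneous (d i)) (hE : ∀ i, d i * E i = D) {Z : Finset (Fin q)}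
  (hGm : ∀ P, ¬ GmBdd (Ideal.span {G | ∃ i ∈ Z, G = F i}) (∏ i ∈ Finset.univ \ Z, F i)
    (BB (nj n q D) 2) P) {ℓ : Fin (n + 1) → Form n} (hℓ : LinearIndependent ℂ ℓ)

include hD hF hE hGm hℓ

/-- **Uniform positivity.** -/
theorem log_eff {L : Type} [Field L] [Algebra ℂ L] {b : Fin (n + 1) → L} (hb : b ≠ 0)
    (hbZ : ∀ i ∈ Z, aeval b (F i) = 0) (hbZ' : ∀ i ∉ Z, aeval b (F i) ≠ 0) {w : ℕ} (hw : 0 < w)
    (htr : Algebra.trdeg ℂ L = w) (halg : Algebra.IsAlgebraic
      (IntermediateField.adjoin ℂ {f : L | ∃ i j, b j ≠ 0 ∧ f = b i / b j}) L)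
    {Bd : FF.Place ℂ L → Prop}
    (hr : ∀ P, ¬ Bd P → RamifiedPlace (mm (nj n q D) 2) ℓ b P)
    (hoff : ∀ P, ¬ Bd P → ∀ c, Norm P b c → ∀ i ∉ Z, P.ord (aeval b (F i)) = d i * c) :
    Effective L (RR (nj n q D) 2) w Bd b := by
  classical
  obtain ⟨B, hAB, hBA⟩ := mat_unit hℓ
  set x : Fin (n + 1) → L := fun i => formK (ℓ i) b with hx
  have hxb : ∀ j, b j = ∑ k, algebraMap ℂ L (B j k) * x k := by
    intro j
    have h1 : ∀ k, x k = ∑ l, algebraMap ℂ L (mat ℓ k l) * b l := fun k => rfl
    calc b j = ∑ l, algebraMap ℂ L ((B * mat ℓ) j l) * b l := by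
          rw [hBA]
          simp [Matrix.one_apply]
      _ = _ := by
          simp only [h1, Matrix.mul_apply, map_sum, map_mul, Finset.sum_mul, Finset.mul_sum]
          rw [Finset.sum_comm]
          refine Finset.sum_congr rfl fun k _ => Finset.sum_congr rfl fun l _ => by ring
  have hx0 : x ≠ 0 := by
    intro h0
    apply hb
    funext j
    rw [hxb]
    refine Finset.sum_eq_zero fun k _ => ?_
    rw [show x k = 0 from congrFun h0 k, mul_zero]
  set F' : Fin q → MvPolynomial (Fin (n + 1)) ℂ := fun i => sub B (F i) with hF'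
  have hF'h : ∀ i, (F' i).IsHomogeneous (d i) := fun i => sub_hom (hF i)
  have hval : ∀ i, aeval x (F' i) = aeval b (F i) := by
    intro i
    rw [hF', sub_aeval]
    congr 2
    funext j
    exact (hxb j).symm
  have hE0 : ∀ i, E i ≠ 0 := by
    intro i h0
    have := hE i
    rw [h0, mul_zero] at this
    omega
  obtain ⟨l0, hl0⟩ := Function.ne_iff.1 hx0
  have hl0' : x l0 ≠ 0 := hl0
  set Y : Fin (nj n q D + 1) → L := yv D F' E x with hY
  have hYs : ∀ a : Jx n q D, Y ((ej n q D).symm a) = ver D F' E x a := fun a =>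
    yv_symm D F' E x a
  have hY0 : Y ≠ 0 := by
    intro h0
    have h1 := congrFun h0 ((ej n q D).symm (Sum.inl (mono hD l0 l0)))
    rw [hYs, ver_mono] at h1
    exact mul_ne_zero (pow_ne_zero _ hl0') hl0' h1
  by_contra hgt0
  have hgt : ¬ Effective L (RR (nj n q D) 2) w Bd Y := fun h => hgt0 (eff_of_yv hD hxb hb h)
  -- the quotients of the coordinates generate the same field
  have hgen : Algebra.IsAlgebraic (coords ℂ Y) L := by
    refine Pool.Agent.TH152.HY.alg_mono ?_ halg
    rw [IntermediateField.adjoin_le_iff]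
    rintro _ ⟨i, j, hj, rfl⟩
    have hq : ∀ l, x l / x l0 ∈ coords ℂ Y := by
      intro l
      have h1 : x l / x l0 = Y ((ej n q D).symm (Sum.inl (mono hD l0 l))) /
          Y ((ej n q D).symm (Sum.inl (mono hD l0 l0))) := by
        rw [hYs, hYs, ver_mono, ver_mono]
        field_simp
      rw [h1]
      refine IntermediateField.subset_adjoin ℂ _ ⟨_, _, ?_, rfl⟩
      rw [hYs, ver_mono]
      exact mul_ne_zero (pow_ne_zero _ hl0') hl0'
    have h1 : ∀ j, b j / x l0 ∈ coords ℂ Y := by
      intro j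
      rw [hxb j, Finset.sum_div]
      refine Subalgebra.sum_mem (coords ℂ Y).toSubalgebra fun l _ => ?_
      rw [mul_div_assoc]
      exact mul_mem (IntermediateField.algebraMap_mem _ _) (hq l)
    have h2 : b i / b j = (b i / x l0) / (b j / x l0) := by
      field_simp
    rw [h2]
    exact div_mem (h1 i) (h1 j)
  obtain ⟨v, hv⟩ := weights_eff (F := rel D F' E) (d := 2) (rel_deg D F' E).form (rel_deg D F' E).le
    hw htr hY0 hgen (fun r => rel_zero hF'h hE x r) (fun P hP i j hi hj hij => by
      obtain ⟨j0, hj0, hmin⟩ := Pool.Agent.W603.GR.exists_min P hb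
      obtain ⟨k0, hk0, hkmin⟩ := Pool.Agent.W603.GR.exists_min P hx0
      have hN : Norm P b (P.ord (b j0)) := ⟨fun j hj => hmin j hj, j0, hj0, rfl⟩
      have hc0 := hoff P hP _ hN
      -- the two minima agree
      have hle : P.ord (x k0) ≤ P.ord (b j0) := by
        have h1 : Pool.Agent.W603.LV.Ge P (P.ord (x k0)) (b j0) := by
          rw [hxb j0]
          refine Pool.Agent.W603.LV.Ge.sum _ _ fun k _ => ?_
          have h2 : Pool.Agent.W603.LV.Ge P (P.ord (x k0)) (x k) := by
            by_cases h : x k = 0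
            · exact Or.inl h
            · exact Or.inr (hkmin k h)
          have h3 := (Pool.Agent.W603.LV.Ge.const (P := P) (B j0 k)).mul h2
          rwa [zero_add] at h3
        exact h1.resolve_left hj0
      have hge : P.ord (b j0) ≤ P.ord (x k0) := by
        have h1 : Pool.Agent.W603.LV.Ge P (P.ord (b j0)) (x k0) := by
          change Pool.Agent.W603.LV.Ge P (P.ord (b j0))
            (∑ l, algebraMap ℂ L (mat ℓ k0 l) * b l)
          refine Pool.Agent.W603.LV.Ge.sum _ _ fun k _ => ?_
          have h2 : Pool.Agent.W603.LV.Ge P (P.ord (b j0)) (b k) := by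
            by_cases h : b k = 0
            · exact Or.inl h
            · exact Or.inr (hmin k h)
          have h3 := (Pool.Agent.W603.LV.Ge.const (P := P) (mat ℓ k0 k)).mul h2
          rwa [zero_add] at h3
        exact h1.resolve_left hk0
      have hcc : P.ord (b j0) = P.ord (x k0) := le_antisymm hge hle
      obtain ⟨i', hi', hle'⟩ := hr P hP _ hN (by
        by_contra hcon
        push Not at hcon
        -- all coordinates have the same order
        have hall : ∀ k, Y k ≠ 0 → P.ord (Y k) = D * P.ord (b j0) := by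
          intro k hk
          have hk' : ver D F' E x (ej n q D k) ≠ 0 := hk
          change P.ord (ver D F' E x (ej n q D k)) = _
          revert hk'
          rcases ej n q D k with α | i
          · intro hk'
            change ∏ j, x j ^ α.1 j ≠ 0 at hk'
            have h1 : ∀ j, α.1 j ≠ 0 → x j ≠ 0 := by
              intro j hj h0
              exact hk' (Finset.prod_eq_zero (Finset.mem_univ j) (by rw [h0, zero_pow hj]))
            change P.ord (∏ j, x j ^ α.1 j) = _
            rw [ord_pow_prod P α.1 h1]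
            have h2 : ∀ j, (α.1 j : ℤ) * P.ord (x j) = (α.1 j : ℤ) * P.ord (b j0) := by
              intro j
              by_cases hj : α.1 j = 0
              · rw [hj, Nat.cast_zero, zero_mul, zero_mul]
              · rw [hcon j (h1 j hj)]
            rw [Finset.sum_congr rfl fun j _ => h2 j, ← Finset.sum_mul]
            congr 1
            have h3 := α.2
            rw [Finsupp.degree_eq_sum] at h3
            exact_mod_cast h3
          · intro hk'
            change aeval x (F' i) ^ E i ≠ 0 at hk'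
            change P.ord (aeval x (F' i) ^ E i) = _
            rw [hval] at hk' ⊢
            have hi : i ∉ Z := by
              intro h
              rw [hbZ i h, zero_pow (hE0 i)] at hk'
              exact hk' rfl
            rw [P.ord_pow, hc0 i hi, ← hE i]
            push_cast
            ring
        exact hij ((hall i hi).trans (hall j hj).symm))
      refine ⟨(ej n q D).symm (Sum.inl (mono hD i' i')),
        (ej n q D).symm (Sum.inl (mono hD k0 k0)), ?_, ?_, ?_⟩
      · rw [hYs, ver_mono]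
        exact mul_ne_zero (pow_ne_zero _ hi') hi'
      · rw [hYs, ver_mono]
        exact mul_ne_zero (pow_ne_zero _ hk0) hk0
      · rw [hYs, hYs, ver_mono, ver_mono, ← pow_succ, ← pow_succ, P.ord_pow, P.ord_pow,
          Nat.sub_add_cancel hD, ← mul_sub]
        have h1 : (mm (nj n q D) 2 : ℤ) ≤ P.ord (x i') - P.ord (x k0) := by
          change P.ord (b j0) + _ ≤ P.ord (x i') at hle'
          omega
        have h2 : (1 : ℤ) ≤ (D : ℤ) := by exact_mod_cast hD
        have h3 : (0 : ℤ) ≤ (mm (nj n q D) 2 : ℤ) := Int.natCast_nonneg _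
        nlinarith) hgt
  obtain ⟨w', hw', ⟨i, j, hi, hj, hij⟩, hwc⟩ := bad_bounded (F := rel D F' E) (d := 2)
    (rel_deg D F' E).form (rel_deg D F' E).le hv
  -- a complex point
  set T : Fin (nj n q D + 1) → MvPolynomial (Fin (n + 1)) ℂ := yv D F' E X with hT
  have hTx : ∀ {S : Type} [CommRing S] [Algebra ℂ S] (s : Fin (n + 1) → S) (k),
      aeval s (T k) = yv D F' E s k := by
    intro S _ _ s k
    rw [hT, yv_map]
    congr 1
    funext l
    exact aeval_X _ _
  obtain ⟨x0, hx1, hx2⟩ := specialise (k := ℂ) x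
    (T i * T j * (X l0 * ∏ i ∈ Finset.univ \ Z, F' i)) (by
      rw [map_mul, map_mul, map_mul, map_prod, hTx, hTx, aeval_X]
      refine mul_ne_zero (mul_ne_zero hi hj) (mul_ne_zero hl0' (Finset.prod_ne_zero_iff.2
        fun i hi => ?_))
      rw [hval]
      exact hbZ' i (Finset.mem_sdiff.1 hi).2)
  rw [map_mul, map_mul, map_mul, map_prod, hTx, hTx, aeval_X] at hx1
  have h1 := left_ne_zero_of_mul hx1
  have h2 := right_ne_zero_of_mul hx1
  have h3 := Finset.prod_ne_zero_iff.1 (right_ne_zero_of_mul h2)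
  refine no_special hD hF hE hAB hGm (x := x0)
    (fun h0 => left_ne_zero_of_mul h2 (congrFun h0 l0)) (fun i hi => ?_)
    (fun i hi => h3 i (Finset.mem_sdiff.2 ⟨Finset.mem_univ _, hi⟩)) hw' (left_ne_zero_of_mul h1)
    (right_ne_zero_of_mul h1) (fun h => hij (congrArg (Nat.cast : ℕ → ℤ) h)) ?_
  · exact hx2 _ (by rw [hval]; exact hbZ i hi)
  · refine onGroup_iff.2 fun e v => ?_
    have h4 : aeval x (aeval T (wc (fun l => (w' l : ℤ)) v (rel D F' E e))) = 0 := by
      rw [← AlgHom.comp_apply, comp_aeval]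
      have h5 : (fun k => aeval x (T k)) = Y := funext fun k => hTx x k
      rw [h5]
      exact hwc e v
    have h6 := hx2 _ h4
    rw [← AlgHom.comp_apply, comp_aeval] at h6
    have h7 : (fun k => aeval x0 (T k)) = yv D F' E x0 := funext fun k => hTx x0 k
    rw [h7] at h6
    exact h6

end

end Run7.h34.GK
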