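import Pool.Agent.Run7.h34.GK.EffA

/-!
General hypersurface arrangements: degrees of curves, and uniform positivity of the canonical
bundles of the subvarieties of ramified covers.
-/

set_option autoImplicit false

namespace Run7.h34.GK

open FF MvPolynomial Filter Metric Topology Pool.Agent.H159R3.NV
open Pool.Agent.W602.GT Pool.Agent.W603.BP Pool.Agent.TH152.HY Pool.Agent.W602.Cov
  Pool.Agent.W602.Cov.R Pool.Agent.W602.Cov.G Pool.Agent.W601.PH Pool.Agent.W602.Cov.Cover
open Run7.h34.OK Run7.h34.UG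
open Pool.Agent.V1153.UG (GmBdd)
open Pool.Agent.W603.LV (euler canDeg)
open Pool.Agent.W603.PV (pord pht pord_le exists_pord)
open Pool.Agent.TH182.VD (CI)
open Pool.Agent.TH152.DS (Effective Nonconstant CurvesBounded UniformOverPn UniformOff
  mem_range_of_alg deg_bound pht_prod exists_sec)

variable {N n q : ℕ}

/-- a point which is not constant generates -/
theorem alg_of_nonconst {L : Type} [Field L] [Algebra ℂ L] [IsFF ℂ L] {b : Fin (n + 1) → L}
    (h : ∃ i j, b j ≠ 0 ∧ b i / b j ∉ Set.range (algebraMap ℂ L)) :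
    Algebra.IsAlgebraic
      (IntermediateField.adjoin ℂ {f : L | ∃ i j, b j ≠ 0 ∧ f = b i / b j}) L := by
  obtain ⟨i1, j1, hj1, hij1⟩ := h
  have htrans : Transcendental ℂ (b i1 / b j1) := fun h => hij1 (mem_range_of_alg h)
  have h4 := (IsFF.basis (k := ℂ) htrans).isAlgebraic_field
  refine Pool.Agent.TH152.HY.alg_mono ?_ h4
  rw [IntermediateField.adjoin_le_iff]
  rintro _ ⟨u, rfl⟩
  exact IntermediateField.subset_adjoin ℂ _ ⟨i1, j1, hj1, rfl⟩

/-- the order of a point and the normalisation -/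
theorem norm_pord {L : Type} [Field L] [Algebra ℂ L] {P : Place ℂ L}
    {b : Fin (n + 1) → L} {c : ℤ} (h : Norm P b c) : pord P b = c := by
  obtain ⟨h1, j, hj, rfl⟩ := h
  obtain ⟨i, hi, hi'⟩ := exists_pord P (f := b) ⟨j, hj⟩
  exact le_antisymm (pord_le P hj) (hi' ▸ h1 i hi)

section

variable {F : Fin q → MvPolynomial (Fin (n + 1)) ℂ} {d E : Fin q → ℕ} {D : ℕ} (hD : 1 ≤ D)
  (hF : ∀ i, (F i).IsHomogeneous (d i)) (hE : ∀ i, d i * E i = D) {Z : Finset (Fin q)}
  (hGm : ∀ P, ¬ GmBdd (Ideal.span {G | ∃ i ∈ Z, G = F i}) (∏ i ∈ Finset.univ \ Z, F i)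
    (BB (nj n q D) 2) P) {ℓ : Fin (n + 1) → Form n} (hℓ : LinearIndependent ℂ ℓ)

include hD hF hE hGm hℓ

/-- **Degrees of curves.** -/
theorem curve_bound {L : Type} [Field L] [Algebra ℂ L] [IsFF ℂ L] {b : Fin (n + 1) → L}
    (hb : ∃ i j, b j ≠ 0 ∧ b i / b j ∉ Set.range (algebraMap ℂ L))
    (hbZ : ∀ i ∈ Z, aeval b (F i) = 0) (hbZ' : ∀ i ∉ Z, aeval b (F i) ≠ 0)
    (S : Finset (Place ℂ L))
    (hr : ∀ P ∉ S, RamifiedPlace (mm (nj n q D) 2) ℓ b P)
    (hoff : ∀ P ∉ S, ∀ i ∉ Z, P.ord (aeval b (F i)) = d i * pord P b) :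
    pht ℂ b ≤ RR (nj n q D) 2 * euler S := by
  have halg := alg_of_nonconst hb
  obtain ⟨i, j, hj, -⟩ := hb
  have hb0 : b ≠ 0 := fun h => hj (congrFun h j)
  refine deg_bound ⟨j, hj⟩ (log_eff hD hF hE hGm hℓ hb0 hbZ hbZ' one_pos
    (by rw [IsFF.trdeg (k := ℂ) (K := L)]; norm_num) halg (Bd := fun P => P ∈ S)
    (fun P hP => hr P hP) fun P hP c hc i hi => ?_) S fun P hP => hP
  rw [hoff P hP i hi, norm_pord hc]

variable {X Δ : BiSet N n} (hX : ∀ u v, X.Mem u v → ∀ i ∈ Z, eval v (F i) = 0)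
  (hram : RamifiedOff X (withHyp Δ (∏ i ∈ Finset.univ \ Z, F i)) ℓ (mm (nj n q D) 2))

include hX hram

/-- subvarieties of ramified covers -/
theorem cov_eff {L : Type} [Field L] [Algebra ℂ L] {a : Fin (N + 1) → L} {b : Fin (n + 1) → L}
    {r : ℕ} (hmem : X.Mem a b) (hoff : aeval b (∏ i ∈ Finset.univ \ Z, F i) ≠ 0)
    (hℓb : ∀ i, lf (ℓ i) b ≠ 0) (halg : Algebra.IsAlgebraic
      (IntermediateField.adjoin ℂ {f : L | ∃ i j, b j ≠ 0 ∧ f = b i / b j}) L)
    (htr : Algebra.trdeg ℂ L = r) (hr : 0 < r) :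
    Effective L (RR (nj n q D) 2) r
      (CentreIn (withHyp Δ (∏ i ∈ Finset.univ \ Z, F i)) a b) b := by
  classical
  have hQh : (∏ i ∈ Finset.univ \ Z, F i).IsHomogeneous (∑ i ∈ Finset.univ \ Z, d i) :=
    IsHomogeneous.prod _ _ _ fun i _ => hF i
  have hQ := hoff
  rw [map_prod] at hQ
  have hbZ' : ∀ i ∉ Z, aeval b (F i) ≠ 0 := fun i hi =>
    Finset.prod_ne_zero_iff.1 hQ i (Finset.mem_sdiff.2 ⟨Finset.mem_univ _, hi⟩)
  refine log_eff hD hF hE hGm hℓ hmem.2.1 (fun i hi => ?_) hbZ' hr htr halg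
    (fun P hP => ram_place hram hmem hℓb P hP) (fun P hP c hc i hi => ?_)
  · have h1 := null (G := rename Sum.inr (F i)) (fun u v huv => by
      rw [eval_rename]
      exact hX u v huv i hi) hmem
    rwa [aeval_inr] at h1
  · obtain ⟨-, h1⟩ := off_place hQh P hP hc
    have hge : ∀ i, i ∉ Z → (d i : ℤ) * c ≤ P.ord (aeval b (F i)) := by
      intro i hi
      have h2 := ge_form' P (b := b) (c0 := c) (fun j => by
        by_cases hj : b j = 0
        · exact Or.inl hj
        · exact Or.inr (hc.1 j hj)) (hF i)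
      exact h2.resolve_left (hbZ' i hi)
    rw [map_prod, ord_prod' P _ _ fun i hi => hbZ' i (Finset.mem_sdiff.1 hi).2] at h1
    push_cast at h1
    rw [Finset.sum_mul] at h1
    have hiS : i ∈ Finset.univ \ Z := Finset.mem_sdiff.2 ⟨Finset.mem_univ _, hi⟩
    rw [← Finset.add_sum_erase _ _ hiS, ← Finset.add_sum_erase _ _ hiS] at h1
    have h3 : ∑ j ∈ (Finset.univ \ Z).erase i, (d j : ℤ) * c ≤
        ∑ j ∈ (Finset.univ \ Z).erase i, P.ord (aeval b (F j)) :=
      Finset.sum_le_sum fun j hj => hge j (Finset.mem_sdiff.1 (Finset.mem_of_mem_erase hj)).2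
    have h4 := hge i hi
    linarith

/-- **Uniform positivity and degrees of curves in ramified covers.** -/
theorem cov_bound {K : Type} [Field K] [Algebra ℂ K] {a : Fin (N + 1) → K} {b : Fin (n + 1) → K}
    (hK : X.FunctionField K a b) (halg : Algebra.IsAlgebraic
      (IntermediateField.adjoin ℂ {f : K | ∃ i j, b j ≠ 0 ∧ f = b i / b j}) K)
    (hlb : ∀ i, lf (ℓ i) b ≠ 0)
    (hoff : ¬ (withHyp Δ (∏ i ∈ Finset.univ \ Z, F i)).Mem a b) :
    ∃ (G : BiPoly N n) (e e' : ℕ), BiHom G e e' ∧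
      (∃ u v, QMem X (withHyp Δ (∏ i ∈ Finset.univ \ Z, F i)) u v ∧
        eval (Sum.elim u v) G ≠ 0) ∧
      UniformOverPn X (withHyp Δ (∏ i ∈ Finset.univ \ Z, F i)) G (RR (nj n q D) 2) ∧
      ∃ R : ℕ, 0 < R ∧
        UniformOff X (withHyp Δ (∏ i ∈ Finset.univ \ Z, F i)) G R ∧
        CurvesBounded X (withHyp Δ (∏ i ∈ Finset.univ \ Z, F i)) G (RR (nj n q D) 2) R := by
  classical
  set DD : BiSet N n := withHyp Δ (∏ i ∈ Finset.univ \ Z, F i) with hDD
  choose Dg mm' c hrel using fun i j => exists_rel hK halg i j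
  let T : MvPolynomial (Fin (n + 1)) ℂ :=
    ∏ i : Fin (N + 1), ∏ j : Fin (N + 1), c i j (mm' i j)
  let Q : MvPolynomial (Fin (n + 1)) ℂ := T * ((∏ i, li (ℓ i)) * ∏ i ∈ Finset.univ \ Z, F i)
  obtain ⟨e0, hQh⟩ : ∃ e0, Q.IsHomogeneous e0 :=
    ⟨_, (IsHomogeneous.prod _ _ _ fun i _ => IsHomogeneous.prod _ _ _ fun j _ =>
      (hrel i j).1.hom _ le_rfl).mul ((IsHomogeneous.prod _ _ _ fun i _ => li_hom _).mul
      (IsHomogeneous.prod _ _ _ fun i _ => hF i))⟩
  have hsplit : ∀ {L : Type} [Field L] [Algebra ℂ L] (y : Fin (n + 1) → L), aeval y Q ≠ 0 →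
      (∀ i j, aeval y (c i j (mm' i j)) ≠ 0) ∧ (∀ i, lf (ℓ i) y ≠ 0) ∧
      aeval y (∏ i ∈ Finset.univ \ Z, F i) ≠ 0 := by
    intro L _ _ y hy
    have h1 : aeval y Q = aeval y T * (aeval y (∏ i, li (ℓ i)) *
        aeval y (∏ i ∈ Finset.univ \ Z, F i)) := by
      simp only [Q, map_mul]
    rw [h1] at hy
    have h2 := left_ne_zero_of_mul hy
    have h3 := left_ne_zero_of_mul (right_ne_zero_of_mul hy)
    have h4 := right_ne_zero_of_mul (right_ne_zero_of_mul hy)
    refine ⟨fun i j h0 => h2 ?_, fun i h0 => h3 ?_, h4⟩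
    · simp only [T, map_prod]
      exact Finset.prod_eq_zero (Finset.mem_univ i) (Finset.prod_eq_zero (Finset.mem_univ j) h0)
    · simp only [map_prod, aeval_li]
      exact Finset.prod_eq_zero (Finset.mem_univ i) h0
  have hbQ : aeval b Q ≠ 0 := by
    simp only [Q, T, map_mul, map_prod, aeval_li]
    refine mul_ne_zero (Finset.prod_ne_zero_iff.mpr fun i _ =>
      Finset.prod_ne_zero_iff.mpr fun j _ => (hrel i j).2)
      (mul_ne_zero (Finset.prod_ne_zero_iff.mpr fun i _ => hlb i) ?_)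
    have h1 := off_of_mem hK.mem.1 hK.mem.2.1 hoff
    rwa [map_prod] at h1
  -- the exponent
  have hEffOver : ∀ {L : Type} [Field L] [Algebra ℂ L] {a' : Fin (N + 1) → L}
      {b' : Fin (n + 1) → L} {r : ℕ}, X.Mem a' b' → aeval b' Q ≠ 0 → Algebra.IsAlgebraic
        (IntermediateField.adjoin ℂ {f : L | ∃ i j, b' j ≠ 0 ∧ f = b' i / b' j}) L →
      Algebra.trdeg ℂ L = r → 0 < r → Effective L (RR (nj n q D) 2) r (CentreIn DD a' b') b' := by
    intro L _ _ a' b' r hmem hne halg' htr' hr'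
    obtain ⟨h1, h2, h3⟩ := hsplit b' hne
    exact cov_eff hD hF hE hGm hℓ hX hram hmem h3 h2 halg' htr' hr'
  refine ⟨rename Sum.inr Q, 0, e0, biHom_rename hQh, ?_, ?_,
    RR (nj n q D) 2 * ((∑ i, ∑ j, Dg i j) + 1), Nat.mul_pos (RR_pos _ _) (Nat.succ_pos _), ?_, ?_⟩
  · -- a point of `X - D`
    have h1 : ∃ F' ∈ DD.eqs, aeval (Sum.elim a b) F' ≠ 0 := by
      by_contra hcon
      push Not at hcon
      exact hoff ⟨hK.mem.1, hK.mem.2.1, hcon⟩
    obtain ⟨F', hF', hFab⟩ := h1
    obtain ⟨e, e', he⟩ := DD.hom F' hF'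
    have h2 : BiHom (F' * rename Sum.inr Q : BiPoly N n) (e + 0) (e' + e0) := by
      have := IsWeightedHomogeneous.mul he (biHom_rename (N := N) hQh)
      exact this
    by_contra hcon
    push Not at hcon
    have h3 := (hK.van _ _ _ h2).2 (fun u v huv => by
      rw [map_mul]
      by_cases hFv : eval (Sum.elim u v) F' = 0
      · rw [hFv, zero_mul]
      · rw [hcon u v ⟨huv, fun hd => hFv (hd.2.2 F' hF')⟩, mul_zero])
    rw [map_mul, aeval_inr] at h3
    exact mul_ne_zero hFab hbQ h3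
  · intro L _ _ a' b' r hmem _ hne hgen htr' hr'
    rw [aeval_inr] at hne
    obtain ⟨h1, h2, h3⟩ := hsplit b' hne
    exact hEffOver hmem hne (alg_sub (fun i j => (hrel i j).1) hmem h1 hgen) htr' hr'
  · intro L _ _ a' b' r hmem _ hne hgen htr' hr'
    rw [aeval_inr] at hne
    obtain ⟨h1, h2, h3⟩ := hsplit b' hne
    obtain ⟨s, hs, hsec⟩ := exists_sec (fun i j => (hrel i j).1) hmem h1
    exact (hEffOver hmem hne (alg_sub (fun i j => (hrel i j).1) hmem h1 hgen) htr' hr').both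
      hmem.2.1 hs hsec
  · intro L _ _ _ S a' b' hmem hPS hnc hne
    rw [aeval_inr] at hne
    obtain ⟨h1, h2, h3⟩ := hsplit b' hne
    obtain ⟨ja, hja⟩ := Function.ne_iff.mp hmem.1
    obtain ⟨jb, hjb⟩ := Function.ne_iff.mp hmem.2.1
    -- `b'` is not constant
    have hncb : ∃ i j, b' j ≠ 0 ∧ b' i / b' j ∉ Set.range (algebraMap ℂ L) := by
      rcases hnc with ⟨i, j, hj, hij⟩ | h
      · by_contra hcon
        push Not at hcon
        have hv : ∀ l, ∃ v : ℂ, algebraMap ℂ L v = b' l / b' jb := fun l => hcon l jb hjb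
        choose v hv using hv
        have hb' : b' = fun l => b' jb * algebraMap ℂ L (v l) := by
          funext l
          rw [hv]
          have : b' jb ≠ 0 := hjb
          field_simp
        have hval : ∀ s ≤ mm' i j, aeval b' (c i j s) =
            b' jb ^ Dg i j * algebraMap ℂ L (eval v (c i j s)) := by
          intro s hs
          have e : aeval b' (c i j s) =
              aeval (fun l => b' jb * algebraMap ℂ L (v l)) (c i j s) :=
            congrArg (fun z => aeval z (c i j s)) hb'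
          rw [e, aeval_scale _ ((hrel i j).1.hom s hs)]
          congr 1
          have := aeval_algebraMap_apply (A := ℂ) L v (c i j s)
          rw [← coe_aeval_eq_eval]
          exact this
        apply hij
        apply mem_range_of_alg
        have hroot := (hrel i j).1.root hmem hj
        refine ⟨∑ s ∈ Finset.range (mm' i j + 1),
          Polynomial.C (eval v (c i j s)) * Polynomial.X ^ s, fun h0 => ?_, ?_⟩
        · have h4 := congrArg (fun p => Polynomial.coeff p (mm' i j)) h0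
          simp only [Polynomial.finsetSum_coeff, Polynomial.coeff_C_mul, Polynomial.coeff_X_pow,
            Polynomial.coeff_zero] at h4
          rw [Finset.sum_eq_single (mm' i j)] at h4
          · rw [if_pos rfl, mul_one] at h4
            apply h1 i j
            rw [hval _ le_rfl, h4, map_zero, mul_zero]
          · intro s _ hs
            rw [if_neg (fun h => hs h.symm), mul_zero]
          · intro h
            exact absurd (by simp) h
        · have h5 : b' jb ^ Dg i j * (∑ s ∈ Finset.range (mm' i j + 1),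
              algebraMap ℂ L (eval v (c i j s)) * (a' i / a' j) ^ s) = 0 := by
            rw [← hroot, Finset.mul_sum]
            refine Finset.sum_congr rfl fun s hs => ?_
            rw [hval s (by have := Finset.mem_range.1 hs; omega)]
            ring
          have h6 := (mul_eq_zero.mp h5).resolve_left (pow_ne_zero _ hjb)
          rw [map_sum, ← h6]
          refine Finset.sum_congr rfl fun s _ => ?_
          rw [map_mul, map_pow, Polynomial.aeval_C, Polynomial.aeval_X]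
      · exact h
    have heff := hEffOver hmem hne (alg_of_nonconst hncb) (r := 1)
      (by rw [IsFF.trdeg (k := ℂ) (K := L)]; norm_num) one_pos
    obtain ⟨s, hs, hsec⟩ := exists_sec (fun i j => (hrel i j).1) hmem h1
    exact ⟨deg_bound ⟨jb, hjb⟩ heff S hPS,
      pht_prod ⟨ja, hja⟩ ⟨jb, hjb⟩ (heff.both hmem.2.1 hs hsec) S hPS⟩

end

end Run7.h34.GK
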