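import Pool.Agent.Run7.h34.GK.EffB

/-!
Vojta's height inequality with truncated counting functions for hypersurfaces in general position
together with arbitrary hyperplanes.
-/

set_option autoImplicit false

namespace Run7.h34.GK

open FF MvPolynomial Pool.Agent.W602.GT Pool.Agent.TH152.HY Pool.Agent.W602.Cov
  Pool.Agent.W602.Cov.R Pool.Agent.W602.Cov.G Pool.Agent.W602.Cov.Cover
open Run7.h34.OK Run7.h34.UG
open Pool.Agent.V1153.UG (GmBdd)
open Pool.Agent.TH152.DS (Effective)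
open Pool.Agent.W603.LV (canDeg Ge)
open Pool.Agent.W603.PV (pord pht pord_le exists_pord)

variable {n q : ℕ}

/-- The place `P` is counted: the point `b` meets at `P` one of the hypersurfaces `F i = 0` (of degree
`d i`) which do not contain `b`, or `b` meets at `P` one of the hyperplanes `ℓ j = 0` which do not
contain `b`, with a multiplicity less than `m` for all of these hyperplanes. -/
def Counted (m : ℕ) (F : Fin q → MvPolynomial (Fin (n + 1)) ℂ) (d : Fin q → ℕ)
    (ℓ : Fin (n + 1) → Form n) {L : Type} [Field L] [Algebra ℂ L] (b : Fin (n + 1) → L)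
    (P : Place ℂ L) : Prop :=
  (∃ i, aeval b (F i) ≠ 0 ∧ d i * pord P b < P.ord (aeval b (F i))) ∨
    ((∃ j, formK (ℓ j) b ≠ 0 ∧ pord P b < P.ord (formK (ℓ j) b)) ∧
      ∀ j, formK (ℓ j) b ≠ 0 → P.ord (formK (ℓ j) b) < pord P b + m)

theorem pord_norm {L : Type} [Field L] [Algebra ℂ L] (P : Place ℂ L) {b : Fin (n + 1) → L}
    (hb : b ≠ 0) : Norm P b (pord P b) := by
  obtain ⟨j, hj⟩ := Function.ne_iff.1 hb
  exact ⟨fun j hj => pord_le P hj, exists_pord P ⟨j, hj⟩⟩

/-- orders of linear forms -/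
theorem formK_ge {L : Type} [Field L] [Algebra ℂ L] (P : Place ℂ L) {b : Fin (n + 1) → L}
    {c : ℤ} (hc : Norm P b c) {φ : Form n} (h : formK φ b ≠ 0) : c ≤ P.ord (formK φ b) := by
  have h1 : Ge P c (formK φ b) := by
    unfold formK
    refine Ge.sum _ _ fun k _ => ?_
    have h2 : Ge P c (b k) := by
      by_cases h : b k = 0
      · exact Or.inl h
      · exact Or.inr (hc.1 k h)
    have h3 := (Ge.const (P := P) (φ (Pi.single k 1))).mul h2
    rwa [zero_add] at h3
  exact h1.resolve_left h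

/-- a place which is not counted is ramified -/
theorem ram_of_not {m : ℕ} {F : Fin q → MvPolynomial (Fin (n + 1)) ℂ} {d : Fin q → ℕ}
    {ℓ : Fin (n + 1) → Form n} {L : Type} [Field L] [Algebra ℂ L] {b : Fin (n + 1) → L}
    {P : Place ℂ L} (h : ¬ Counted m F d ℓ b P) : RamifiedPlace m ℓ b P := by
  rintro c hc ⟨i, hi, hne⟩
  rw [← norm_pord hc] at hne ⊢
  have h1 := formK_ge P hc hi
  rw [← norm_pord hc] at h1
  by_contra hcon
  push Not at hcon
  exact h (Or.inr ⟨⟨i, hi, lt_of_le_of_ne h1 (Ne.symm hne)⟩, fun j hj => hcon j hj⟩)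

/-- the finiteness of the set of the places which are counted -/
theorem counted_finite {m : ℕ} {F : Fin q → MvPolynomial (Fin (n + 1)) ℂ} {d : Fin q → ℕ}
    {ℓ : Fin (n + 1) → Form n} {L : Type} [Field L] [Algebra ℂ L] [IsFF ℂ L]
    {b : Fin (n + 1) → L} (hb : b ≠ 0) : {P : Place ℂ L | Counted m F d ℓ b P}.Finite := by
  classical
  obtain ⟨T1, hT1⟩ := Pool.Agent.W603.LV.exists_supp (k := ℂ)
    (Finset.univ : Finset (Fin (n + 1))) b
  obtain ⟨T2, hT2⟩ := Pool.Agent.W603.LV.exists_supp (k := ℂ)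
    (Finset.univ : Finset (Fin q)) fun i => aeval b (F i)
  obtain ⟨T3, hT3⟩ := Pool.Agent.W603.LV.exists_supp (k := ℂ)
    (Finset.univ : Finset (Fin (n + 1))) fun j => formK (ℓ j) b
  refine (Finset.finite_toSet (T1 ∪ (T2 ∪ T3))).subset fun P hP => ?_
  rw [Finset.coe_union, Finset.coe_union]
  by_cases h0 : pord P b = 0
  · right
    rcases hP with ⟨i, -, hlt⟩ | ⟨⟨j, -, hlt⟩, -⟩
    · left
      exact hT2 i (Finset.mem_univ _) P (by rw [h0, mul_zero] at hlt; exact hlt.ne')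
    · right
      exact hT3 j (Finset.mem_univ _) P (by rw [h0] at hlt; exact hlt.ne')
  · left
    obtain ⟨j, hj⟩ := Function.ne_iff.1 hb
    obtain ⟨j, hj, hpj⟩ := exists_pord P (f := b) ⟨j, hj⟩
    exact hT1 j (Finset.mem_univ _) P (by rw [hpj]; exact h0)

section

variable {F : Fin q → MvPolynomial (Fin (n + 1)) ℂ} {d E : Fin q → ℕ} {D : ℕ} (hD : 1 ≤ D)
  (hF : ∀ i, (F i).IsHomogeneous (d i)) (hE : ∀ i, d i * E i = D) {Z : Finset (Fin q)}
  (hGm : ∀ P, ¬ GmBdd (Ideal.span {G | ∃ i ∈ Z, G = F i}) (∏ i ∈ Finset.univ \ Z, F i)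
    (BB (nj n q D) 2) P) {ℓ : Fin (n + 1) → Form n} (hℓ : LinearIndependent ℂ ℓ)

include hD hF hE hGm hℓ

/-- **Positivity for all points.** -/
theorem counted_eff {L : Type} [Field L] [Algebra ℂ L] {b : Fin (n + 1) → L} (hb : b ≠ 0)
    (hbZ : ∀ i, aeval b (F i) = 0 ↔ i ∈ Z) {w : ℕ} (hw : 0 < w)
    (htr : Algebra.trdeg ℂ L = w) (halg : Algebra.IsAlgebraic
      (IntermediateField.adjoin ℂ {f : L | ∃ i j, b j ≠ 0 ∧ f = b i / b j}) L) :
    Effective L (RR (nj n q D) 2) w (Counted (mm (nj n q D) 2) F d ℓ b) b := by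
  refine log_eff hD hF hE hGm hℓ hb (fun i hi => (hbZ i).2 hi)
    (fun i hi h => hi ((hbZ i).1 h)) hw htr halg (fun P hP => ram_of_not hP)
    fun P hP c hc i hi => ?_
  have h1 : aeval b (F i) ≠ 0 := fun h => hi ((hbZ i).1 h)
  have h2 := (ge_form' P (b := b) (c0 := c) (fun j => by
    by_cases hj : b j = 0
    · exact Or.inl hj
    · exact Or.inr (hc.1 j hj)) (hF i)).resolve_left h1
  refine le_antisymm ?_ h2
  by_contra hcon
  push Not at hcon
  exact hP (Or.inl ⟨i, h1, by rw [norm_pord hc]; exact hcon⟩)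

/-- **The height inequality.** -/
theorem counted_height {L : Type} [Field L] [Algebra ℂ L] [IsFF ℂ L] {b : Fin (n + 1) → L}
    (hb : ∃ i j, b j ≠ 0 ∧ b i / b j ∉ Set.range (algebraMap ℂ L))
    (hbZ : ∀ i, aeval b (F i) = 0 ↔ i ∈ Z) :
    pht ℂ b ≤ RR (nj n q D) 2 * (canDeg ℂ L +
      {P : Place ℂ L | Counted (mm (nj n q D) 2) F d ℓ b P}.ncard) := by
  classical
  have halg := alg_of_nonconst hb
  obtain ⟨i, j, hj, -⟩ := hb
  have hb0 : b ≠ 0 := fun h => hj (congrFun h j)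
  have hfin := counted_finite (m := mm (nj n q D) 2) (F := F) (d := d) (ℓ := ℓ) hb0
  have h1 := Pool.Agent.TH152.DS.deg_bound ⟨j, hj⟩ (counted_eff hD hF hE hGm hℓ hb0 hbZ one_pos
    (by rw [IsFF.trdeg (k := ℂ) (K := L)]; norm_num) halg) hfin.toFinset
    fun P hP h => hP ((Set.Finite.mem_toFinset _).2 h)
  refine h1.trans (le_of_eq ?_)
  unfold Pool.Agent.W603.LV.euler
  rw [Set.ncard_eq_toFinset_card _ hfin]

end

end Run7.h34.GK
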