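import Pool.Agent.Run7.h34.GK.Base

/-!
The Veronese coordinates and the values of forms: weights and curves of the multiplicative group.
-/

set_option autoImplicit false

namespace Run7.h34.GK

open MvPolynomial
open Pool.Agent.V1153.UG (GmBdd)

variable {n q : ℕ}

/-- curves of the multiplicative group after a linear change of coordinates -/
theorem gm_of {I : Ideal (MvPolynomial (Fin (n + 1)) ℂ)} {Q : MvPolynomial (Fin (n + 1)) ℂ} {N : ℕ}
    {A B : Matrix (Fin (n + 1)) (Fin (n + 1)) ℂ} (hAB : A * B = 1) {y : Fin (n + 1) → ℂ}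
    {w : Fin (n + 1) → ℕ} (hw : ∀ l, w l ≤ N) {i j : Fin (n + 1)} (hi : y i ≠ 0) (hj : y j ≠ 0)
    (hij : w i ≠ w j)
    (hI : ∀ G ∈ I, aeval (fun k => (Polynomial.C (y k) * Polynomial.X ^ w k : Polynomial ℂ))
      (sub B G) = 0)
    (hQ : ∃ (c : ℂ) (k : ℕ), c ≠ 0 ∧
      aeval (fun k => (Polynomial.C (y k) * Polynomial.X ^ w k : Polynomial ℂ)) (sub B Q) =
        Polynomial.C c * Polynomial.X ^ k) :
    GmBdd I Q N fun j => ∑ k, algebraMap ℂ (Polynomial ℂ) (B j k) *
      (Polynomial.C (y k) * Polynomial.X ^ w k) := by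
  classical
  refine ⟨fun j => ?_, fun G hG _ => ?_, ?_, ?_⟩
  · refine Polynomial.natDegree_sum_le_of_forall_le _ _ fun k _ => ?_
    refine (Polynomial.natDegree_C_mul_le _ _).trans ?_
    exact (Polynomial.natDegree_C_mul_X_pow_le _ _).trans (hw k)
  · rw [← sub_aeval]
    exact hI G hG
  · obtain ⟨c, k, hc, h⟩ := hQ
    refine ⟨c, k, hc, ?_⟩
    rw [← sub_aeval]
    exact h
  · -- not constant
    by_contra hcon
    push Not at hcon
    set P : Fin (n + 1) → Polynomial ℂ := fun j => ∑ k, algebraMap ℂ (Polynomial ℂ) (B j k) *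
      (Polynomial.C (y k) * Polynomial.X ^ w k) with hP
    have hev : ∀ t : ℂ, (fun j => (P j).eval t) = B.mulVec fun k => y k * t ^ w k := by
      intro t
      funext j
      simp only [hP, Polynomial.eval_finsetSum, Polynomial.eval_mul, Polynomial.eval_C,
        Polynomial.eval_pow, Polynomial.eval_X]
      rw [Matrix.mulVec, dotProduct]
      refine Finset.sum_congr rfl fun k _ => ?_
      congr 1
      exact Polynomial.eval_C
    have hback : ∀ t : ℂ, (fun k => y k * t ^ w k) = A.mulVec fun j => (P j).eval t := by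
      intro t
      rw [hev, Matrix.mulVec_mulVec, hAB, Matrix.one_mulVec]
    have hcross : ∀ s t : ℂ, (y i * s ^ w i) * (y j * t ^ w j) =
        (y j * s ^ w j) * (y i * t ^ w i) := by
      intro s t
      have e : ∀ (t : ℂ) k, y k * t ^ w k = ∑ a, A k a * (P a).eval t := fun t k =>
        congrFun (hback t) k
      rw [e, e, e, e, Finset.sum_mul_sum, Finset.sum_mul_sum, Finset.sum_comm]
      refine Finset.sum_congr rfl fun a _ => Finset.sum_congr rfl fun b _ => ?_
      have h1 := hcon s t b a
      linear_combination (A i b * A j a) * h1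
    have h2 := hcross 2 1
    simp only [one_pow, mul_one] at h2
    have h3 : (2 : ℂ) ^ w i = 2 ^ w j := by
      have h4 : y i * y j ≠ 0 := mul_ne_zero hi hj
      apply mul_left_cancel₀ h4
      linear_combination h2
    apply hij
    have h5 : (2 : ℕ) ^ w i = 2 ^ w j := by exact_mod_cast h3
    exact Nat.pow_right_injective le_rfl h5

/-- the exponents of the monomials of degree `D` -/
abbrev Mn (n D : ℕ) : Type := {α : Fin (n + 1) →₀ ℕ // α.degree = D}

noncomputable instance (n D : ℕ) : Fintype (Mn n D) := by
  have h1 : {α : Fin (n + 1) →₀ ℕ | α.degree = D}.Finite := by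
    refine (Finsupp.finite_of_degree_le D).subset ?_
    intro α hα
    exact le_of_eq hα
  exact h1.fintype

/-- the monomials of degree `D` and the forms -/
abbrev Jx (n q D : ℕ) : Type := Mn n D ⊕ Fin q

/-- the exponents `(D - 1) e_0 + e_j` -/
noncomputable def mono {D : ℕ} (hD : 1 ≤ D) (j0 j : Fin (n + 1)) : Mn n D :=
  ⟨Finsupp.single j0 (D - 1) + Finsupp.single j 1, by
    rw [map_add, Finsupp.degree_single, Finsupp.degree_single]
    omega⟩

/-- the values of the monomials of degree `D` and of the powers of degree `D` of the forms -/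
noncomputable def ver {R : Type} [CommRing R] [Algebra ℂ R] (D : ℕ)
    (F : Fin q → MvPolynomial (Fin (n + 1)) ℂ) (E : Fin q → ℕ) (x : Fin (n + 1) → R) :
    Jx n q D → R :=
  Sum.elim (fun α => ∏ j, x j ^ α.1 j) fun i => aeval x (F i) ^ E i

theorem ver_mono {R : Type} [CommRing R] [Algebra ℂ R] {D : ℕ} (hD : 1 ≤ D)
    (F : Fin q → MvPolynomial (Fin (n + 1)) ℂ) (E : Fin q → ℕ) (x : Fin (n + 1) → R)
    (j0 j : Fin (n + 1)) : ver D F E x (Sum.inl (mono hD j0 j)) = x j0 ^ (D - 1) * x j := by
  classical
  change ∏ l, x l ^ (Finsupp.single j0 (D - 1) + Finsupp.single j 1 : Fin (n + 1) →₀ ℕ) l = _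
  simp only [Finsupp.add_apply, pow_add, Finset.prod_mul_distrib]
  congr 1
  · rw [Finset.prod_eq_single j0 (fun l _ hl => by rw [Finsupp.single_apply, if_neg (Ne.symm hl),
      pow_zero]) (fun h => absurd (Finset.mem_univ _) h), Finsupp.single_eq_same]
  · rw [Finset.prod_eq_single j (fun l _ hl => by rw [Finsupp.single_apply, if_neg (Ne.symm hl),
      pow_zero]) (fun h => absurd (Finset.mem_univ _) h), Finsupp.single_eq_same, pow_one]

/-- a homogeneous polynomial as a sum over the monomials of degree `D` -/
theorem form_sum {R : Type} [CommRing R] [Algebra ℂ R] {D : ℕ} {G : MvPolynomial (Fin (n + 1)) ℂ}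
    (hG : G.IsHomogeneous D) (x : Fin (n + 1) → R) :
    aeval x G = ∑ α : Mn n D, algebraMap ℂ R (coeff α.1 G) * ∏ j, x j ^ α.1 j := by
  classical
  rw [aeval_def, eval₂_eq']
  have h1 : ∀ α ∈ G.support, α.degree = D := fun α hα => by
    have := hG (mem_support_iff.1 hα)
    rw [← this, Finsupp.degree_eq_weight_one]
    rfl
  rw [← Finset.sum_subtype_of_mem (p := fun α => α.degree = D)
    (fun α => algebraMap ℂ R (coeff α G) * ∏ j, x j ^ α j) h1]
  refine Finset.sum_subset (Finset.subset_univ _) fun α _ hα => ?_
  have h2 : coeff α.1 G = 0 := by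
    by_contra h
    exact hα (by simpa using h)
  rw [h2, map_zero, zero_mul]

/-- The weights of the values of the monomials and forms at a point with the values in a curve. -/
structure Wtd (D : ℕ) (F : Fin q → MvPolynomial (Fin (n + 1)) ℂ) (E : Fin q → ℕ)
    (x : Fin (n + 1) → ℂ) (W : Jx n q D → ℕ) : Prop where
  quad : ∀ α β γ δ : Mn n D, α.1 + β.1 = γ.1 + δ.1 →
    (Polynomial.C (ver D F E x (Sum.inl α)) * Polynomial.X ^ W (Sum.inl α)) *
      (Polynomial.C (ver D F E x (Sum.inl β)) * Polynomial.X ^ W (Sum.inl β)) =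
    (Polynomial.C (ver D F E x (Sum.inl γ)) * Polynomial.X ^ W (Sum.inl γ)) *
      (Polynomial.C (ver D F E x (Sum.inl δ)) * Polynomial.X ^ W (Sum.inl δ))
  lin : ∀ i, Polynomial.C (ver D F E x (Sum.inr i)) * Polynomial.X ^ W (Sum.inr i) =
    ∑ α : Mn n D, Polynomial.C (coeff α.1 (F i ^ E i)) *
      (Polynomial.C (ver D F E x (Sum.inl α)) * Polynomial.X ^ W (Sum.inl α))

/-- **The weights come from weights of the coordinates.** -/
theorem wtd_curve {D : ℕ} (hD : 1 ≤ D) {F : Fin q → MvPolynomial (Fin (n + 1)) ℂ}
    {d E : Fin q → ℕ} (hF : ∀ i, (F i).IsHomogeneous (d i)) (hE : ∀ i, d i * E i = D)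
    {x : Fin (n + 1) → ℂ} (hx : x ≠ 0) {W : Jx n q D → ℕ} {N : ℕ} (hW : ∀ a, W a ≤ N)
    (h : Wtd D F E x W) {a b : Jx n q D} (ha : ver D F E x a ≠ 0) (hb : ver D F E x b ≠ 0)
    (hab : W a ≠ W b) :
    ∃ u : Fin (n + 1) → ℕ, (∀ j, u j ≤ N) ∧ (∃ i j, x i ≠ 0 ∧ x j ≠ 0 ∧ u i ≠ u j) ∧
      (∀ i, aeval x (F i) = 0 →
        aeval (fun k => (Polynomial.C (x k) * Polynomial.X ^ u k : Polynomial ℂ)) (F i) = 0) ∧
      ∀ i, aeval x (F i) ≠ 0 → ∃ (c : ℂ) (k : ℕ), c ≠ 0 ∧
        aeval (fun k => (Polynomial.C (x k) * Polynomial.X ^ u k : Polynomial ℂ)) (F i) =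
          Polynomial.C c * Polynomial.X ^ k := by
  classical
  obtain ⟨j0, hj0⟩ := Function.ne_iff.1 hx
  have hj0' : x j0 ≠ 0 := hj0
  have hE1 : ∀ i, 1 ≤ E i := by
    intro i
    rw [Nat.one_le_iff_ne_zero]
    intro h0
    have := hE i
    rw [h0, mul_zero] at this
    omega
  -- the values of the monomials
  have hval : ∀ α : Mn n D, (∀ j, x j = 0 → α.1 j = 0) → ver D F E x (Sum.inl α) ≠ 0 := by
    intro α hα
    change ∏ j, x j ^ α.1 j ≠ 0
    refine Finset.prod_ne_zero_iff.2 fun j _ => ?_
    by_cases hj : x j = 0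
    · rw [hα j hj, pow_zero]
      exact one_ne_zero
    · exact pow_ne_zero _ hj
  have hval0 : ∀ α : Mn n D, (∃ j, x j = 0 ∧ α.1 j ≠ 0) → ver D F E x (Sum.inl α) = 0 := by
    rintro α ⟨j, hj, hα⟩
    exact Finset.prod_eq_zero (Finset.mem_univ j) (by rw [hj, zero_pow hα])
  have hquad : ∀ α β γ δ : Mn n D, α.1 + β.1 = γ.1 + δ.1 → (∀ j, x j = 0 → α.1 j = 0) →
      (∀ j, x j = 0 → β.1 j = 0) →
      W (Sum.inl α) + W (Sum.inl β) = W (Sum.inl γ) + W (Sum.inl δ) := by
    intro α β γ δ hs hα hβ
    have h1 := h.quad α β γ δ hs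
    have e : ∀ (s t : ℂ) (k l : ℕ), (Polynomial.C s * Polynomial.X ^ k : Polynomial ℂ) *
        (Polynomial.C t * Polynomial.X ^ l) = Polynomial.C (s * t) * Polynomial.X ^ (k + l) := by
      intro s t k l
      rw [map_mul, pow_add]
      ring
    rw [e, e] at h1
    have h2 := congrArg Polynomial.natDegree h1
    have h3 : ∀ j, x j = 0 → γ.1 j = 0 ∧ δ.1 j = 0 := by
      intro j hj
      have h4 := DFunLike.congr_fun hs j
      rw [Finsupp.add_apply, Finsupp.add_apply, hα j hj, hβ j hj] at h4
      omega
    rw [Polynomial.natDegree_C_mul_X_pow _ _ (mul_ne_zero (hval α hα) (hval β hβ)),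
      Polynomial.natDegree_C_mul_X_pow _ _ (mul_ne_zero (hval γ fun j hj => (h3 j hj).1)
        (hval δ fun j hj => (h3 j hj).2))] at h2
    exact h2
  set u : Fin (n + 1) → ℕ := fun j => W (Sum.inl (mono hD j0 j)) with hu
  -- the weights of the monomials
  have hlin : ∀ (s : ℕ) (α : Mn n D), (∀ j, x j = 0 → α.1 j = 0) → D - α.1 j0 = s →
      W (Sum.inl α) + D * u j0 = ∑ j, α.1 j * u j + u j0 := by
    intro s
    induction s using Nat.strong_induction_on with
    | _ s ih =>
      intro α hα hs
      by_cases hall : ∀ j, j ≠ j0 → α.1 j = 0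
      · have h1 : α = mono hD j0 j0 := by
          apply Subtype.ext
          have h2 : α.1 = Finsupp.single j0 (α.1 j0) := by
            ext j
            by_cases hj : j = j0
            · rw [hj, Finsupp.single_eq_same]
            · rw [hall j hj, Finsupp.single_apply, if_neg (Ne.symm hj)]
          have h3 : α.1 j0 = D := by
            have h4 := α.2
            rw [h2, Finsupp.degree_single] at h4
            exact h4
          rw [h2, h3]
          change _ = Finsupp.single j0 (D - 1) + Finsupp.single j0 1
          rw [← Finsupp.single_add]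
          congr 1
          omega
        have h2 : ∑ j, α.1 j * u j = D * u j0 := by
          rw [Finset.sum_eq_single j0 (fun j _ hj => by rw [hall j hj, zero_mul])
            (fun h => absurd (Finset.mem_univ _) h)]
          congr 1
          rw [h1]
          change (Finsupp.single j0 (D - 1) + Finsupp.single j0 1 : Fin (n + 1) →₀ ℕ) j0 = D
          rw [Finsupp.add_apply, Finsupp.single_eq_same, Finsupp.single_eq_same]
          omega
        rw [h2, h1]
        change u j0 + D * u j0 = _
        ring
      · push Not at hall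
        obtain ⟨j, hj, hαj⟩ := hall
        have hle : Finsupp.single j 1 ≤ α.1 := by
          intro l
          rw [Finsupp.single_apply]
          split_ifs with hl
          · rw [← hl]
            omega
          · exact Nat.zero_le _
        obtain ⟨ρ, hρ⟩ := le_iff_exists_add.1 hle
        have hρd : ρ.degree + 1 = D := by
          have h1 := α.2
          rw [hρ, map_add, Finsupp.degree_single] at h1
          omega
        let α' : Mn n D := ⟨ρ + Finsupp.single j0 1, by
          rw [map_add, Finsupp.degree_single]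
          exact hρd⟩
        have hxj : x j ≠ 0 := fun h0 => hαj (hα j h0)
        have hα' : ∀ l, x l = 0 → α'.1 l = 0 := by
          intro l hl
          have h1 := hα l hl
          rw [hρ, Finsupp.add_apply] at h1
          change (ρ + Finsupp.single j0 1 : Fin (n + 1) →₀ ℕ) l = 0
          rw [Finsupp.add_apply, Finsupp.single_apply, if_neg (fun h => hj0' (by rw [h, hl]))]
          omega
        have hρj0 : α.1 j0 = ρ j0 := by
          rw [hρ, Finsupp.add_apply, Finsupp.single_apply, if_neg hj, zero_add]
        have hα'j0 : α'.1 j0 = ρ j0 + 1 := by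
          change (ρ + Finsupp.single j0 1 : Fin (n + 1) →₀ ℕ) j0 = _
          rw [Finsupp.add_apply, Finsupp.single_eq_same]
        have hρle : ρ j0 ≤ ρ.degree := Finsupp.le_degree j0 ρ
        have h1 := ih (D - α'.1 j0) (by rw [← hs, hρj0, hα'j0]; omega) α' hα' rfl
        have h2 := hquad α (mono hD j0 j0) α' (mono hD j0 j) (by
          change α.1 + (Finsupp.single j0 (D - 1) + Finsupp.single j0 1) =
            (ρ + Finsupp.single j0 1) + (Finsupp.single j0 (D - 1) + Finsupp.single j 1)
          rw [hρ]
          abel) hα (fun l hl => by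
          change (Finsupp.single j0 (D - 1) + Finsupp.single j0 1 : Fin (n + 1) →₀ ℕ) l = 0
          have hne : j0 ≠ l := fun h => hj0' (by rw [h, hl])
          rw [Finsupp.add_apply, Finsupp.single_apply, Finsupp.single_apply, if_neg hne,
            if_neg hne, add_zero])
        have h3 : ∑ l, α.1 l * u l = ∑ l, ρ l * u l + u j := by
          rw [hρ]
          simp only [Finsupp.add_apply, add_mul, Finset.sum_add_distrib]
          rw [add_comm]
          congr 1
          rw [Finset.sum_eq_single j (fun l _ hl => by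
            rw [Finsupp.single_apply, if_neg (Ne.symm hl), zero_mul])
            (fun h => absurd (Finset.mem_univ _) h), Finsupp.single_eq_same, one_mul]
        have h4 : ∑ l, α'.1 l * u l = ∑ l, ρ l * u l + u j0 := by
          change ∑ l, (ρ + Finsupp.single j0 1 : Fin (n + 1) →₀ ℕ) l * u l = _
          simp only [Finsupp.add_apply, add_mul, Finset.sum_add_distrib]
          congr 1
          rw [Finset.sum_eq_single j0 (fun l _ hl => by
            rw [Finsupp.single_apply, if_neg (Ne.symm hl), zero_mul])
            (fun h => absurd (Finset.mem_univ _) h), Finsupp.single_eq_same, one_mul]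
        have h5 : W (Sum.inl α) + u j0 = W (Sum.inl α') + u j := h2
        rw [h4] at h1
        rw [h3]
        omega
  -- the values of the forms
  have hform : ∀ i, Polynomial.X ^ u j0 *
      aeval (fun k => (Polynomial.C (x k) * Polynomial.X ^ u k : Polynomial ℂ)) (F i) ^ E i =
      Polynomial.C (ver D F E x (Sum.inr i)) * Polynomial.X ^ (D * u j0 + W (Sum.inr i)) := by
    intro i
    have hFE : (F i ^ E i).IsHomogeneous D := by
      have := (hF i).pow (E i)
      rwa [hE i] at this
    rw [← map_pow, form_sum hFE, Finset.mul_sum, pow_add, mul_left_comm, h.lin i,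
      Finset.mul_sum]
    refine Finset.sum_congr rfl fun α _ => ?_
    have e1 : ∏ j, (Polynomial.C (x j) * Polynomial.X ^ u j : Polynomial ℂ) ^ α.1 j =
        Polynomial.C (ver D F E x (Sum.inl α)) * Polynomial.X ^ (∑ j, α.1 j * u j) := by
      simp only [mul_pow, Finset.prod_mul_distrib, ← pow_mul]
      rw [Finset.prod_pow_eq_pow_sum]
      congr 1
      · change _ = Polynomial.C (∏ j, x j ^ α.1 j)
        rw [map_prod]
        exact Finset.prod_congr rfl fun j _ => by rw [map_pow]
      · congr 1
        exact Finset.sum_congr rfl fun j _ => mul_comm _ _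
    rw [e1]
    change Polynomial.X ^ u j0 * (Polynomial.C (coeff α.1 (F i ^ E i)) * _) = _
    by_cases hα : ∀ j, x j = 0 → α.1 j = 0
    · have h2 := hlin _ α hα rfl
      have h3 : (Polynomial.X : Polynomial ℂ) ^ u j0 * Polynomial.X ^ (∑ j, α.1 j * u j) =
          Polynomial.X ^ (D * u j0) * Polynomial.X ^ W (Sum.inl α) := by
        rw [← pow_add, ← pow_add]
        congr 1
        omega
      linear_combination (Polynomial.C (coeff α.1 (F i ^ E i)) *
        Polynomial.C (ver D F E x (Sum.inl α))) * h3
    · push Not at hα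
      rw [hval0 α hα, map_zero]
      ring
  have hvi : ∀ i, ver D F E x (Sum.inr i) = aeval x (F i) ^ E i := fun i => rfl
  refine ⟨u, fun j => hW _, ?_, fun i hi => ?_, fun i hi => ?_⟩
  · -- not all weights agree
    by_contra hcon
    push Not at hcon
    have hu0 : ∀ j, x j ≠ 0 → u j = u j0 := fun j hj => hcon j j0 hj hj0'
    have hW0 : ∀ c : Jx n q D, ver D F E x c ≠ 0 → W c = u j0 := by
      rintro (α | i) hc
      · have hα : ∀ j, x j = 0 → α.1 j = 0 := by
          intro j hj
          by_contra h0
          exact hc (hval0 α ⟨j, hj, h0⟩)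
        have h1 := hlin _ α hα rfl
        have h2 : ∑ j, α.1 j * u j = D * u j0 := by
          have h3 : ∀ j, α.1 j * u j = α.1 j * u j0 := by
            intro j
            by_cases hj : x j = 0
            · rw [hα j hj, zero_mul, zero_mul]
            · rw [hu0 j hj]
          rw [Finset.sum_congr rfl fun j _ => h3 j, ← Finset.sum_mul, ← Finsupp.degree_eq_sum, α.2]
        omega
      · have h1 := hform i
        have h2 : aeval (fun k => (Polynomial.C (x k) * Polynomial.X ^ u k : Polynomial ℂ)) (F i) =
            Polynomial.X ^ (d i * u j0) * Polynomial.C (aeval x (F i)) := by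
          rw [form_sum (hF i), form_sum (hF i), map_sum, Finset.mul_sum]
          refine Finset.sum_congr rfl fun α _ => ?_
          have h3 : ∏ j, (Polynomial.C (x j) * Polynomial.X ^ u j : Polynomial ℂ) ^ α.1 j =
              Polynomial.X ^ (d i * u j0) * Polynomial.C (∏ j, x j ^ α.1 j) := by
            by_cases hα : ∀ j, x j = 0 → α.1 j = 0
            · have h4 : ∀ j, (Polynomial.C (x j) * Polynomial.X ^ u j : Polynomial ℂ) ^ α.1 j =
                  Polynomial.C (x j ^ α.1 j) * (Polynomial.X ^ u j0) ^ α.1 j := by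
                intro j
                by_cases hj : x j = 0
                · rw [hα j hj, pow_zero, pow_zero, pow_zero, map_one, one_mul]
                · rw [mul_pow, hu0 j hj, map_pow]
              rw [Finset.prod_congr rfl fun j _ => h4 j, Finset.prod_mul_distrib,
                Finset.prod_pow_eq_pow_sum, ← Finsupp.degree_eq_sum, α.2, ← map_prod, ← pow_mul,
                mul_comm (u j0)]
              ring
            · push Not at hα
              obtain ⟨j, hj, hαj⟩ := hα
              rw [Finset.prod_eq_zero (Finset.mem_univ j) (by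
                rw [hj, map_zero, zero_mul, zero_pow hαj]),
                Finset.prod_eq_zero (Finset.mem_univ j) (by rw [hj, zero_pow hαj]), map_zero,
                mul_zero]
          rw [h3, map_mul]
          change Polynomial.C (coeff α.1 (F i)) * (Polynomial.X ^ (d i * u j0) *
            Polynomial.C (∏ j, x j ^ α.1 j)) = Polynomial.X ^ (d i * u j0) *
            (Polynomial.C (coeff α.1 (F i)) * Polynomial.C (∏ j, x j ^ α.1 j))
          ring
        rw [h2, mul_pow, ← map_pow, ← hvi, ← pow_mul] at h1
        have h3 := congrArg Polynomial.natDegree h1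
        have e : (Polynomial.X : Polynomial ℂ) ^ u j0 * (Polynomial.X ^ (d i * u j0 * E i) *
            Polynomial.C (ver D F E x (Sum.inr i))) = Polynomial.C (ver D F E x (Sum.inr i)) *
            Polynomial.X ^ (u j0 + d i * u j0 * E i) := by
          rw [pow_add]
          ring
        rw [e, Polynomial.natDegree_C_mul_X_pow _ _ hc, Polynomial.natDegree_C_mul_X_pow _ _ hc]
          at h3
        have h4 : d i * u j0 * E i = D * u j0 := by
          rw [← hE i]
          ring
        omega
    exact hab ((hW0 a ha).trans (hW0 b hb).symm)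
  · have h1 := hform i
    rw [hvi, hi, zero_pow (by have := hE1 i; omega), map_zero, zero_mul] at h1
    have h2 := (mul_eq_zero.1 h1).resolve_left (pow_ne_zero _ Polynomial.X_ne_zero)
    exact pow_eq_zero_iff (by have := hE1 i; omega) |>.1 h2
  · obtain ⟨c, k, hc, h1⟩ := Pool.Agent.TH182.VD.eq_C_mul_X_pow
      (p := aeval (fun k => (Polynomial.C (x k) * Polynomial.X ^ u k : Polynomial ℂ)) (F i)) (by
        intro t ht h0
        have h1 := congrArg (Polynomial.eval t) (hform i)
        simp only [Polynomial.eval_mul, Polynomial.eval_pow, Polynomial.eval_C,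
          Polynomial.eval_X] at h1
        rw [h0, zero_pow (by have := hE1 i; omega), mul_zero] at h1
        exact mul_ne_zero (by rw [hvi]; exact pow_ne_zero _ hi) (pow_ne_zero _ ht) h1.symm)
    exact ⟨c, k, hc, h1⟩

end Run7.h34.GK
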