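import Pool.Agent.Run7.h34.GK.Main
import Pool.Agent.Run7.h34.GK.Ver

/-!
The strata of hypersurface arrangements without curves of the multiplicative group of bounded
degree: maps which are highly ramified over hyperplanes.
-/

set_option autoImplicit false

namespace Run7.h34.GK

open MvPolynomial Filter Metric Topology Pool.Agent.H159R3.NV
open Pool.Agent.W602.GT Pool.Agent.W603.BP Pool.Agent.TH152.HY Pool.Agent.W602.Cov
  Pool.Agent.W602.Cov.R Pool.Agent.W602.Cov.G Pool.Agent.W601.PH Pool.Agent.W602.Cov.Cover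
open Run7.h34.OK Run7.h34.UG
open Pool.Agent.V1153.UG (GmBdd)

variable {n q : ℕ}

/-- the number of coordinates, minus one -/
noncomputable def nj (n q D : ℕ) : ℕ := Fintype.card (Jx n q D) - 1

/-- an enumeration of the coordinates -/
noncomputable def ej (n q D : ℕ) : Fin (nj n q D + 1) ≃ Jx n q D := by
  classical
  have h : 0 < Fintype.card (Jx n q D) := Fintype.card_pos_iff.2
    ⟨Sum.inl ⟨Finsupp.single 0 D, Finsupp.degree_single _ _⟩⟩
  have h1 : nj n q D + 1 = Fintype.card (Jx n q D) := by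
    unfold nj
    omega
  exact (finCongr h1).trans (Fintype.equivFin (Jx n q D)).symm

/-- the coordinates -/
noncomputable def yv {R : Type} [CommRing R] [Algebra ℂ R] (D : ℕ)
    (F : Fin q → MvPolynomial (Fin (n + 1)) ℂ) (E : Fin q → ℕ) (x : Fin (n + 1) → R) :
    Fin (nj n q D + 1) → R := fun k => ver D F E x (ej n q D k)

/-- the index set of the relations -/
abbrev Rx (n q D : ℕ) : Type :=
  Fin q ⊕ {p : Mn n D × Mn n D × Mn n D × Mn n D // p.1.1 + p.2.1.1 = p.2.2.1.1 + p.2.2.2.1}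

/-- the relations -/
noncomputable def rel (D : ℕ) (F : Fin q → MvPolynomial (Fin (n + 1)) ℂ) (E : Fin q → ℕ) :
    Rx n q D → MvPolynomial (Fin (nj n q D + 1)) ℂ :=
  Sum.elim
    (fun i => X ((ej n q D).symm (Sum.inr i)) -
      ∑ α : Mn n D, C (coeff α.1 (F i ^ E i)) * X ((ej n q D).symm (Sum.inl α)))
    fun p => X ((ej n q D).symm (Sum.inl p.1.1)) * X ((ej n q D).symm (Sum.inl p.1.2.1)) -
      X ((ej n q D).symm (Sum.inl p.1.2.2.1)) * X ((ej n q D).symm (Sum.inl p.1.2.2.2))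

theorem rel_deg (D : ℕ) (F : Fin q → MvPolynomial (Fin (n + 1)) ℂ) (E : Fin q → ℕ) :
    Deg 2 (rel D F E) := by
  classical
  rintro (i | p)
  · refine ⟨1, one_le_two, (isHomogeneous_X ℂ _).sub (IsHomogeneous.sum _ _ _ fun α _ => ?_)⟩
    have := (isHomogeneous_C (Fin (nj n q D + 1)) (coeff α.1 (F i ^ E i))).mul
      (isHomogeneous_X ℂ ((ej n q D).symm (Sum.inl α)))
    rwa [zero_add] at this
  · exact ⟨2, le_rfl, ((isHomogeneous_X ℂ _).mul (isHomogeneous_X ℂ _)).sub
      ((isHomogeneous_X ℂ _).mul (isHomogeneous_X ℂ _))⟩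

theorem yv_symm {R : Type} [CommRing R] [Algebra ℂ R] (D : ℕ)
    (F : Fin q → MvPolynomial (Fin (n + 1)) ℂ) (E : Fin q → ℕ) (x : Fin (n + 1) → R)
    (a : Jx n q D) : yv D F E x ((ej n q D).symm a) = ver D F E x a := by
  unfold yv
  rw [Equiv.apply_symm_apply]

theorem rel_zero {R : Type} [CommRing R] [Algebra ℂ R] {D : ℕ}
    {F : Fin q → MvPolynomial (Fin (n + 1)) ℂ} {d E : Fin q → ℕ}
    (hF : ∀ i, (F i).IsHomogeneous (d i)) (hE : ∀ i, d i * E i = D) (x : Fin (n + 1) → R)
    (r : Rx n q D) : aeval (yv D F E x) (rel D F E r) = 0 := by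
  classical
  rcases r with i | p
  · have hFE : (F i ^ E i).IsHomogeneous D := by
      have := (hF i).pow (E i)
      rwa [hE i] at this
    have h1 : aeval (yv D F E x) (rel D F E (Sum.inl i)) = ver D F E x (Sum.inr i) -
        ∑ α : Mn n D, algebraMap ℂ R (coeff α.1 (F i ^ E i)) * ver D F E x (Sum.inl α) := by
      change aeval (yv D F E x) (X ((ej n q D).symm (Sum.inr i)) -
        ∑ α : Mn n D, C (coeff α.1 (F i ^ E i)) * X ((ej n q D).symm (Sum.inl α))) = _
      simp only [map_sub, map_sum, map_mul, aeval_X, aeval_C, yv_symm]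
    rw [h1]
    change aeval x (F i) ^ E i - ∑ α : Mn n D, algebraMap ℂ R (coeff α.1 (F i ^ E i)) *
      ∏ j, x j ^ α.1 j = 0
    rw [← form_sum hFE, map_pow, sub_self]
  · have h1 : aeval (yv D F E x) (rel D F E (Sum.inr p)) =
        ver D F E x (Sum.inl p.1.1) * ver D F E x (Sum.inl p.1.2.1) -
        ver D F E x (Sum.inl p.1.2.2.1) * ver D F E x (Sum.inl p.1.2.2.2) := by
      change aeval (yv D F E x) (X ((ej n q D).symm (Sum.inl p.1.1)) *
        X ((ej n q D).symm (Sum.inl p.1.2.1)) - X ((ej n q D).symm (Sum.inl p.1.2.2.1)) *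
        X ((ej n q D).symm (Sum.inl p.1.2.2.2))) = _
      simp only [map_sub, map_mul, aeval_X, yv_symm]
    rw [h1]
    have h2 : ∀ α β : Mn n D, ver D F E x (Sum.inl α) * ver D F E x (Sum.inl β) =
        ∏ j, x j ^ (α.1 + β.1) j := by
      intro α β
      change (∏ j, x j ^ α.1 j) * (∏ j, x j ^ β.1 j) = _
      rw [← Finset.prod_mul_distrib]
      exact Finset.prod_congr rfl fun j _ => by rw [Finsupp.add_apply, pow_add]
    rw [h2, h2, p.2, sub_self]

/-- **No special points.** -/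
theorem no_special {D : ℕ} (hD : 1 ≤ D) {F : Fin q → MvPolynomial (Fin (n + 1)) ℂ}
    {d E : Fin q → ℕ} (hF : ∀ i, (F i).IsHomogeneous (d i)) (hE : ∀ i, d i * E i = D)
    {Z : Finset (Fin q)} {A B : Matrix (Fin (n + 1)) (Fin (n + 1)) ℂ} (hAB : A * B = 1)
    (hGm : ∀ P, ¬ GmBdd (Ideal.span {G | ∃ i ∈ Z, G = F i}) (∏ i ∈ Finset.univ \ Z, F i)
      (BB (nj n q D) 2) P) {x : Fin (n + 1) → ℂ} (hx : x ≠ 0)
    (hZ : ∀ i ∈ Z, aeval x (sub B (F i)) = 0) (hZ' : ∀ i ∉ Z, aeval x (sub B (F i)) ≠ 0)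
    {w : Fin (nj n q D + 1) → ℕ} (hw : ∀ l, w l ≤ BB (nj n q D) 2)
    {a b : Fin (nj n q D + 1)} (ha : yv D (fun i => sub B (F i)) E x a ≠ 0)
    (hb : yv D (fun i => sub B (F i)) E x b ≠ 0) (hab : w a ≠ w b)
    (h : OnGroup (rel D (fun i => sub B (F i)) E) w (yv D (fun i => sub B (F i)) E x)) :
    False := by
  classical
  set F' : Fin q → MvPolynomial (Fin (n + 1)) ℂ := fun i => sub B (F i) with hF'
  have hF'h : ∀ i, (F' i).IsHomogeneous (d i) := fun i => sub_hom (hF i)
  set W : Jx n q D → ℕ := fun c => w ((ej n q D).symm c) with hW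
  have hwt : Wtd D F' E x W := by
    constructor
    · intro α β γ δ hs
      have h1 := h (Sum.inr ⟨(α, β, γ, δ), hs⟩)
      change aeval (fun k => (Polynomial.C (yv D F' E x k) * Polynomial.X ^ w k : Polynomial ℂ))
        (X ((ej n q D).symm (Sum.inl α)) * X ((ej n q D).symm (Sum.inl β)) -
        X ((ej n q D).symm (Sum.inl γ)) * X ((ej n q D).symm (Sum.inl δ))) = 0 at h1
      simp only [map_sub, map_mul, aeval_X, yv_symm] at h1
      exact sub_eq_zero.1 h1
    · intro i
      have h1 := h (Sum.inl i)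
      change aeval (fun k => (Polynomial.C (yv D F' E x k) * Polynomial.X ^ w k : Polynomial ℂ))
        (X ((ej n q D).symm (Sum.inr i)) -
        ∑ α : Mn n D, C (coeff α.1 (F' i ^ E i)) * X ((ej n q D).symm (Sum.inl α))) = 0 at h1
      simp only [map_sub, map_sum, map_mul, aeval_X, aeval_C, yv_symm] at h1
      exact sub_eq_zero.1 h1
  obtain ⟨u, hu, ⟨i, j, hi, hj, hij⟩, h1, h2⟩ := wtd_curve hD hF'h hE hx
    (fun c => hw ((ej n q D).symm c)) hwt (a := ej n q D a) (b := ej n q D b) ha hb (by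
      simp only [Equiv.symm_apply_apply]
      exact hab)
  refine hGm _ (gm_of hAB hu hi hj hij (fun G hG => ?_) ?_)
  · -- the ideal
    have h3 : Ideal.span {G | ∃ i ∈ Z, G = F i} ≤ RingHom.ker
        ((aeval (fun k => (Polynomial.C (x k) * Polynomial.X ^ u k : Polynomial ℂ))).comp
          (aeval (fun j => ∑ k, C (B j k) * X k :
            Fin (n + 1) → MvPolynomial (Fin (n + 1)) ℂ))).toRingHom := by
      rw [Ideal.span_le]
      rintro _ ⟨i, hi, rfl⟩
      exact h1 i (hZ i hi)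
    exact h3 hG
  · -- the product
    have h3 : ∀ S : Finset (Fin q), (∀ i ∈ S, i ∉ Z) → ∃ (c : ℂ) (k : ℕ), c ≠ 0 ∧
        aeval (fun k => (Polynomial.C (x k) * Polynomial.X ^ u k : Polynomial ℂ))
          (sub B (∏ i ∈ S, F i)) = Polynomial.C c * Polynomial.X ^ k := by
      intro S
      induction S using Finset.induction_on with
      | empty =>
        intro _
        refine ⟨1, 0, one_ne_zero, ?_⟩
        unfold sub
        simp
      | insert i S hiS ih =>
        intro hS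
        obtain ⟨c, k, hc, h4⟩ := ih fun j hj => hS j (Finset.mem_insert_of_mem hj)
        obtain ⟨c', k', hc', h5⟩ := h2 i (hZ' i (hS i (Finset.mem_insert_self _ _)))
        refine ⟨c' * c, k' + k, mul_ne_zero hc' hc, ?_⟩
        have h6 : sub B (∏ i ∈ insert i S, F i) = sub B (F i) * sub B (∏ i ∈ S, F i) := by
          unfold sub
          rw [Finset.prod_insert hiS, map_mul]
        rw [h6, map_mul, h4]
        change aeval _ (F' i) * _ = _
        rw [h5, map_mul, pow_add]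
        ring
    exact h3 _ fun i hi => (Finset.mem_sdiff.1 hi).2

/-- extension after a linear change of coordinates -/
theorem extends_lin {ℓ : Fin (n + 1) → Form n} (hℓ : LinearIndependent ℂ ℓ)
    {f : ℂ → Fin (n + 1) → ℂ} (hE : Extends fun z i => ℓ i (f z)) : Extends f := by
  obtain ⟨B, hAB, hBA⟩ := mat_unit hℓ
  obtain ⟨g, hg, hg0, hgf⟩ := hE
  refine ⟨fun z => B.mulVec (g z), ?_, fun w hw h0 => hg0 w hw ?_, fun w hw => ?_⟩
  · rw [differentiableOn_pi]
    intro j
    have : (fun z => B.mulVec (g z) j) = fun z => ∑ k, B j k * g z k := rfl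
    rw [this]
    exact DifferentiableOn.fun_sum fun k _ =>
      (differentiableOn_const _).mul ((differentiableOn_pi.1 hg) k)
  · have h1 : (mat ℓ).mulVec (B.mulVec (g w)) = 0 := by
      rw [show B.mulVec (g w) = 0 from h0, Matrix.mulVec_zero]
    rwa [Matrix.mulVec_mulVec, hAB, Matrix.one_mulVec] at h1
  · obtain ⟨c, hc⟩ := hgf w hw
    refine ⟨c, ?_⟩
    have hc' : (fun i => ℓ i (f w)) = c • g w := hc
    have h1 : (mat ℓ).mulVec (f w) = c • g w := by
      rw [← hc']
      exact funext fun i => mat_apply ℓ _ i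
    have h2 : B.mulVec ((mat ℓ).mulVec (f w)) = f w := by
      rw [Matrix.mulVec_mulVec, hBA, Matrix.one_mulVec]
    rw [← h2, h1, Matrix.mulVec_smul]

/-- extension of the Veronese coordinates -/
theorem extends_ver {D : ℕ} (hD : 1 ≤ D) (F : Fin q → MvPolynomial (Fin (n + 1)) ℂ)
    (E : Fin q → ℕ) {x : ℂ → Fin (n + 1) → ℂ}
    (hx : ∀ j, AnalyticOnNhd ℂ (fun z => x z j) (PB 1)) (hx0 : ∀ z ∈ PB 1, x z ≠ 0)
    (hE : Extends fun z => yv D F E (x z)) : Extends x := by
  obtain ⟨g, hg, hg0, hgf⟩ := hE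
  refine extends_of x hx hx0 fun j k hj hk => ?_
  set a := (ej n q D).symm (Sum.inl (mono hD k j)) with ha
  set b := (ej n q D).symm (Sum.inl (mono hD k k)) with hb
  have hga : ∀ l, AnalyticAt ℂ (fun z => g z l) 0 := fun l =>
    (((differentiableOn_pi.1 hg) l).analyticOnNhd isOpen_ball) 0 (mem_ball_self one_pos)
  have hrel : ∀ z ∈ PB 1, ∃ c : ℂ, c ≠ 0 ∧ x z k ^ (D - 1) * x z j = c * g z a ∧
      x z k ^ (D - 1) * x z k = c * g z b := by
    intro z hz1
    obtain ⟨c, hc⟩ := hgf z (mem_disc.2 hz1)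
    have hc' : yv D F E (x z) = c • g z := hc
    refine ⟨c, fun h0 => ?_, ?_, ?_⟩
    · -- the coordinates do not vanish
      obtain ⟨l, hl⟩ := Function.ne_iff.1 (hx0 z hz1)
      have h1 := congrFun hc' ((ej n q D).symm (Sum.inl (mono hD l l)))
      rw [yv_symm, ver_mono, h0, zero_smul] at h1
      have hl' : x z l ≠ 0 := hl
      exact mul_ne_zero (pow_ne_zero _ hl') hl' h1
    · have h1 := congrFun hc' a
      rw [ha, yv_symm, ver_mono] at h1
      exact h1
    · have h1 := congrFun hc' b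
      rw [hb, yv_symm, ver_mono] at h1
      exact h1
  refine ⟨fun z => g z a / g z b, (hga a).meromorphicAt.div (hga b).meromorphicAt, ?_⟩
  have hev : ∀ᶠ z in 𝓝[≠] (0 : ℂ), g z b ≠ 0 := by
    rcases (hga b).eventually_eq_zero_or_eventually_ne_zero with h | h
    · exfalso
      apply hk
      obtain ⟨δ, hδ, hδ'⟩ := ev_iff.1 (h.filter_mono nhdsWithin_le_nhds)
      refine ev_iff.2 ⟨min δ 1, lt_min hδ one_pos, fun z hz => ?_⟩
      obtain ⟨c, -, -, h2⟩ := hrel z (PB_mono (min_le_right _ _) hz)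
      rw [hδ' z (PB_mono (min_le_left _ _) hz), mul_zero, ← pow_succ] at h2
      exact pow_eq_zero_iff (Nat.succ_ne_zero _) |>.1 h2
    · exact h
  refine ev_iff.2 ?_
  obtain ⟨δ, hδ, hδ'⟩ := ev_iff.1 hev
  refine ⟨min δ 1, lt_min hδ one_pos, fun z hz => ?_⟩
  have hz1 : z ∈ PB 1 := PB_mono (min_le_right _ _) hz
  have h4 : g z b ≠ 0 := hδ' z (PB_mono (min_le_left _ _) hz)
  obtain ⟨c, h5, h1, h2⟩ := hrel z hz1
  have h6 : x z k ^ (D - 1) ≠ 0 := by
    intro h0
    rw [h0, zero_mul] at h2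
    exact mul_ne_zero h5 h4 h2.symm
  rw [div_mul_eq_mul_div, eq_div_iff h4]
  apply mul_left_cancel₀ (mul_ne_zero h5 h6)
  linear_combination (g z b * c) * h1 - (g z a * c) * h2

section

variable {F : Fin q → MvPolynomial (Fin (n + 1)) ℂ} {d E : Fin q → ℕ} {D : ℕ} (hD : 1 ≤ D)
  (hF : ∀ i, (F i).IsHomogeneous (d i)) (hE : ∀ i, d i * E i = D) {Z : Finset (Fin q)}
  (hGm : ∀ P, ¬ GmBdd (Ideal.span {G | ∃ i ∈ Z, G = F i}) (∏ i ∈ Finset.univ \ Z, F i)
    (BB (nj n q D) 2) P) {ℓ : Fin (n + 1) → Form n} (hℓ : LinearIndependent ℂ ℓ)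

include hD hF hE hGm hℓ

/-- **Holomorphic maps from the punctured disc.** -/
theorem log_disc {f : ℂ → Fin (n + 1) → ℂ} (hf : ∀ j, AnalyticOnNhd ℂ (fun z => f z j) (PB 1))
    (hf0 : ∀ z ∈ PB 1, f z ≠ 0) (hfZ : ∀ z ∈ PB 1, ∀ i ∈ Z, eval (f z) (F i) = 0)
    (hfZ' : ∀ z ∈ PB 1, ∀ i ∉ Z, eval (f z) (F i) ≠ 0)
    (hr : RamifiedCurve (mm (nj n q D) 2) ℓ (PB 1) f) : Extends f := by
  classical
  obtain ⟨B, hAB, hBA⟩ := mat_unit hℓ
  set x : ℂ → Fin (n + 1) → ℂ := fun z i => ℓ i (f z) with hxdef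
  have hxf : ∀ z, B.mulVec (x z) = f z := by
    intro z
    have h1 : x z = (mat ℓ).mulVec (f z) := funext fun i => (mat_apply ℓ _ i).symm
    rw [h1, Matrix.mulVec_mulVec, hBA, Matrix.one_mulVec]
  have hxa : ∀ i, AnalyticOnNhd ℂ (fun z => x z i) (PB 1) := fun i z hz =>
    form_an (ℓ i) fun j => hf j z hz
  have hx0 : ∀ z ∈ PB 1, x z ≠ 0 := by
    intro z hz h0
    apply hf0 z hz
    rw [← hxf z, h0, Matrix.mulVec_zero]
  have hval : ∀ (y : Fin (n + 1) → ℂ) (G : MvPolynomial (Fin (n + 1)) ℂ),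
      aeval y (sub B G) = eval (B.mulVec y) G := fun y G => sub_aeval B G y
  set F' : Fin q → MvPolynomial (Fin (n + 1)) ℂ := fun i => sub B (F i) with hF'
  have hF'h : ∀ i, (F' i).IsHomogeneous (d i) := fun i => sub_hom (hF i)
  have hZ : ∀ z ∈ PB 1, ∀ i ∈ Z, aeval (x z) (F' i) = 0 := by
    intro z hz i hi
    rw [hF', hval, hxf]
    exact hfZ z hz i hi
  have hZ' : ∀ z ∈ PB 1, ∀ i ∉ Z, aeval (x z) (F' i) ≠ 0 := by
    intro z hz i hi
    rw [hF', hval, hxf]
    exact hfZ' z hz i hi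
  apply extends_lin hℓ
  apply extends_ver (E := E) hD F' hxa hx0
  by_contra hne
  -- the coordinates
  have hya : ∀ k, AnalyticOnNhd ℂ (fun z => yv D F' E (x z) k) (PB 1) := by
    intro k
    unfold yv
    rcases ej n q D k with α | i
    · intro z hz
      change AnalyticAt ℂ (fun z => ∏ j, x z j ^ α.1 j) z
      exact Finset.analyticAt_fun_prod _ fun j _ => (hxa j z hz).fun_pow _
    · intro z hz
      change AnalyticAt ℂ (fun z => eval (x z) (F' i) ^ E i) z
      exact (Pool.Agent.W603.BP.eval_an hxa (F' i) z hz).fun_pow _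
  have hyval : ∀ (z : ℂ) (a : Jx n q D), yv D F' E (x z) ((ej n q D).symm a) =
      ver D F' E (x z) a := fun z a => yv_symm D F' E (x z) a
  obtain ⟨w, hw, ⟨a, b, ha, hb, hab⟩, hwc⟩ := disc (F := rel D F' E) (d := 2)
    (rel_deg D F' E).form (rel_deg D F' E).le (f := fun z => yv D F' E (x z)) hya
    (fun z hz h0 => by
      obtain ⟨l, hl⟩ := Function.ne_iff.1 (hx0 z hz)
      have hl' : x z l ≠ 0 := hl
      have h1 := congrFun h0 ((ej n q D).symm (Sum.inl (mono hD l l)))
      rw [yv_symm, ver_mono] at h1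
      exact mul_ne_zero (pow_ne_zero _ hl') hl' h1)
    (fun z _ r => rel_zero hF'h hE (x z) r) (by
      rintro z hz ⟨k, hk, hk0⟩
      -- some coordinate of `x` vanishes at `z`
      obtain ⟨j, hj, hj0⟩ : ∃ j, Nz (fun w => x w j) ∧ x z j = 0 := by
        have hk' : Nz fun w => ver D F' E (x w) (ej n q D k) := hk
        have hk0' : ver D F' E (x z) (ej n q D k) = 0 := hk0
        revert hk' hk0'
        rcases ej n q D k with α | i
        · intro hk' hk0'
          change ∏ j, x z j ^ α.1 j = 0 at hk0'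
          obtain ⟨j, -, hj⟩ := Finset.prod_eq_zero_iff.1 hk0'
          have hj1 : α.1 j ≠ 0 := fun h0 => by
            rw [h0, pow_zero] at hj
            exact one_ne_zero hj
          refine ⟨j, fun h0 => hk' ?_, pow_eq_zero_iff hj1 |>.1 hj⟩
          filter_upwards [h0] with w hw
          change ∏ j, x w j ^ α.1 j = 0
          exact Finset.prod_eq_zero (Finset.mem_univ j) (by rw [hw, zero_pow hj1])
        · intro hk' hk0'
          exfalso
          change aeval (x z) (F' i) ^ E i = 0 at hk0'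
          have hE0 : E i ≠ 0 := by
            intro h0
            have := hE i
            rw [h0, mul_zero] at this
            omega
          have h1 := pow_eq_zero_iff hE0 |>.1 hk0'
          have hi : i ∈ Z := by
            by_contra h
            exact hZ' z hz i h h1
          apply hk'
          refine ev_iff.2 ⟨1, one_pos, fun w hw => ?_⟩
          change aeval (x w) (F' i) ^ E i = 0
          rw [hZ w hw i hi, zero_pow hE0]
      obtain ⟨w, hw, hwne⟩ := nz_on one_pos hj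
      obtain ⟨i', ⟨w', hw', hwne'⟩, hle⟩ := hr z hz ⟨j, ⟨w, hw, hwne⟩, hj0⟩
      have hfun : (fun w => yv D F' E (x w) ((ej n q D).symm (Sum.inl (mono hD i' i')))) =
          fun w => x w i' ^ D := by
        funext w
        rw [yv_symm, ver_mono, ← pow_succ]
        congr 1
        omega
      refine ⟨(ej n q D).symm (Sum.inl (mono hD i' i')), ?_, ?_⟩
      · rw [hfun]
        exact (nz_of_on (hxa i') hw' hwne').pow D
      · rw [hfun]
        have e2 : (fun w => x w i' ^ D) = (fun w => x w i') ^ D := rfl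
        rw [e2, analyticOrderAt_pow (hxa i' z hz), nsmul_eq_mul]
        calc (mm (nj n q D) 2 : ℕ∞) ≤ analyticOrderAt (fun w => ℓ i' (f w)) z := hle
          _ = 1 * analyticOrderAt (fun w => x w i') z := (one_mul _).symm
          _ ≤ _ := by
            gcongr
            exact_mod_cast hD) hne
  -- a point at which both coordinates do not vanish
  obtain ⟨z, hz, hza, hzb⟩ : ∃ z ∈ PB 1, yv D F' E (x z) a ≠ 0 ∧ yv D F' E (x z) b ≠ 0 := by
    by_contra hcon
    push Not at hcon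
    rcases (hya a).eq_zero_or_eq_zero_of_mul_eq_zero (hya b) (fun z hz => by
      by_cases h : yv D F' E (x z) a = 0
      · rw [h, zero_mul]
      · rw [hcon z hz h, mul_zero]) (PB_preconn one_pos) with h | h
    · obtain ⟨w, hw, hwne⟩ := nz_on one_pos ha
      exact hwne (h w hw)
    · obtain ⟨w, hw, hwne⟩ := nz_on one_pos hb
      exact hwne (h w hw)
  exact no_special hD hF hE hAB hGm (hx0 z hz) (hZ z hz) (hZ' z hz) hw hza hzb hab
    (onGroup_iff.2 fun e v => hwc e v z hz)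

/-- **Entire curves.** -/
theorem log_entire {f : ℂ → Fin (n + 1) → ℂ} (hf : Differentiable ℂ f) (hf0 : ∀ z, f z ≠ 0)
    (hfZ : ∀ z, ∀ i ∈ Z, eval (f z) (F i) = 0) (hfZ' : ∀ z, ∀ i ∉ Z, eval (f z) (F i) ≠ 0)
    (hr : RamifiedCurve (mm (nj n q D) 2) ℓ Set.univ f) (z z' : ℂ) : ∃ c : ℂ, f z = c • f z' := by
  by_contra hcon
  push Not at hcon
  apply sin_not hf hf0 ⟨z, z', hcon⟩
  exact log_disc hD hF hE hGm hℓ (an_of_diffOn (sin_diff hf)) (fun w _ => hf0 _)
    (fun w _ => hfZ _) (fun w _ => hfZ' _) (ram_sin hf hr)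

end

end Run7.h34.GK
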