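import Pool.Agent.Run7.h34.GK.Log

/-!
The strata of hypersurface arrangements without curves of the multiplicative group of bounded
degree: log general type.
-/

set_option autoImplicit false

namespace Run7.h34.GK

open MvPolynomial Filter Metric Topology Pool.Agent.H159R3.NV
open Pool.Agent.W602.GT Pool.Agent.W603.BP Pool.Agent.TH152.HY Pool.Agent.W602.Cov
  Pool.Agent.W602.Cov.R Pool.Agent.W602.Cov.G Pool.Agent.W601.PH Pool.Agent.W602.Cov.Cover
open Run7.h34.OK Run7.h34.UG
open Pool.Agent.V1153.UG (GmBdd)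

variable {n q : ℕ}

theorem yv_map {R S : Type} [CommRing R] [Algebra ℂ R] [CommRing S] [Algebra ℂ S] (φ : R →ₐ[ℂ] S)
    (D : ℕ) (F : Fin q → MvPolynomial (Fin (n + 1)) ℂ) (E : Fin q → ℕ) (x : Fin (n + 1) → R)
    (k : Fin (nj n q D + 1)) : φ (yv D F E x k) = yv D F E (fun j => φ (x j)) k := by
  unfold yv
  rcases ej n q D k with α | i
  · change φ (∏ j, x j ^ α.1 j) = ∏ j, φ (x j) ^ α.1 j
    rw [map_prod]
    exact Finset.prod_congr rfl fun j _ => map_pow _ _ _
  · change φ (aeval x (F i) ^ E i) = aeval (fun j => φ (x j)) (F i) ^ E i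
    rw [map_pow]
    congr 1
    rw [← AlgHom.comp_apply, comp_aeval]

/-- orders of products of powers -/
theorem ord_pow_prod {L : Type} [Field L] [Algebra ℂ L] (P : FF.Place ℂ L) {x : Fin (n + 1) → L}
    (α : Fin (n + 1) →₀ ℕ) (h : ∀ j, α j ≠ 0 → x j ≠ 0) :
    P.ord (∏ j, x j ^ α j) = ∑ j, (α j : ℤ) * P.ord (x j) := by
  classical
  have h1 : ∀ j, x j ^ α j ≠ 0 := by
    intro j
    by_cases hj : α j = 0
    · rw [hj, pow_zero]
      exact one_ne_zero
    · exact pow_ne_zero _ (h j hj)
  rw [ord_prod' P _ _ fun j _ => h1 j]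
  refine Finset.sum_congr rfl fun j _ => ?_
  by_cases hj : α j = 0
  · rw [hj, pow_zero, Nat.cast_zero, zero_mul, P.ord_one]
  · rw [P.ord_pow]

section

variable {F : Fin q → MvPolynomial (Fin (n + 1)) ℂ} {d E : Fin q → ℕ} {D : ℕ} (hD : 1 ≤ D)
  (hF : ∀ i, (F i).IsHomogeneous (d i)) (hE : ∀ i, d i * E i = D) {Z : Finset (Fin q)}
  (hGm : ∀ P, ¬ GmBdd (Ideal.span {G | ∃ i ∈ Z, G = F i}) (∏ i ∈ Finset.univ \ Z, F i)
    (BB (nj n q D) 2) P) {ℓ : Fin (n + 1) → Form n} (hℓ : LinearIndependent ℂ ℓ)

include hD hF hE hGm hℓ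

/-- **Log general type.** -/
theorem log_lgt {L : Type} [Field L] [Algebra ℂ L] {b : Fin (n + 1) → L} (hb : b ≠ 0)
    (hbZ : ∀ i ∈ Z, aeval b (F i) = 0) (hbZ' : ∀ i ∉ Z, aeval b (F i) ≠ 0) {w : ℕ} (hw : 0 < w)
    (htr : Algebra.trdeg ℂ L = w) (halg : Algebra.IsAlgebraic
      (IntermediateField.adjoin ℂ {f : L | ∃ i j, b j ≠ 0 ∧ f = b i / b j}) L)
    {Bd : FF.Place ℂ L → Prop}
    (hr : ∀ P, ¬ Bd P → RamifiedPlace (mm (nj n q D) 2) ℓ b P)
    (hoff : ∀ P, ¬ Bd P → ∀ c, Norm P b c → ∀ i ∉ Z, P.ord (aeval b (F i)) = d i * c) :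
    LogGeneralType ℂ L w Bd := by
  classical
  obtain ⟨B, hAB, hBA⟩ := mat_unit hℓ
  set x : Fin (n + 1) → L := fun i => formK (ℓ i) b with hx
  have hxb : ∀ j, b j = ∑ k, algebraMap ℂ L (B j k) * x k := by
    intro j
    have h1 : ∀ k, x k = ∑ l, algebraMap ℂ L (mat ℓ k l) * b l := fun k => rfl
    calc b j = ∑ l, algebraMap ℂ L ((B * mat ℓ) j l) * b l := by
          rw [hBA]
          simp [Matrix.one_apply]
      _ = _ := by
          simp only [h1, Matrix.mul_apply, map_sum, map_mul, Finset.sum_mul, Finset.mul_sum]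
          rw [Finset.sum_comm]
          refine Finset.sum_congr rfl fun k _ => Finset.sum_congr rfl fun l _ => by ring
  have hx0 : x ≠ 0 := by
    intro h0
    apply hb
    funext j
    rw [hxb]
    refine Finset.sum_eq_zero fun k _ => ?_
    rw [show x k = 0 from congrFun h0 k, mul_zero]
  set F' : Fin q → MvPolynomial (Fin (n + 1)) ℂ := fun i => sub B (F i) with hF'
  have hF'h : ∀ i, (F' i).IsHomogeneous (d i) := fun i => sub_hom (hF i)
  have hval : ∀ i, aeval x (F' i) = aeval b (F i) := by
    intro i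
    rw [hF', sub_aeval]
    congr 2
    funext j
    exact (hxb j).symm
  have hE0 : ∀ i, E i ≠ 0 := by
    intro i h0
    have := hE i
    rw [h0, mul_zero] at this
    omega
  obtain ⟨l0, hl0⟩ := Function.ne_iff.1 hx0
  have hl0' : x l0 ≠ 0 := hl0
  set Y : Fin (nj n q D + 1) → L := yv D F' E x with hY
  have hYs : ∀ a : Jx n q D, Y ((ej n q D).symm a) = ver D F' E x a := fun a =>
    yv_symm D F' E x a
  have hY0 : Y ≠ 0 := by
    intro h0
    have h1 := congrFun h0 ((ej n q D).symm (Sum.inl (mono hD l0 l0)))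
    rw [hYs, ver_mono] at h1
    exact mul_ne_zero (pow_ne_zero _ hl0') hl0' h1
  by_contra hgt
  -- the quotients of the coordinates generate the same field
  have hgen : Algebra.IsAlgebraic (coords ℂ Y) L := by
    refine Pool.Agent.TH152.HY.alg_mono ?_ halg
    rw [IntermediateField.adjoin_le_iff]
    rintro _ ⟨i, j, hj, rfl⟩
    have hq : ∀ l, x l / x l0 ∈ coords ℂ Y := by
      intro l
      have h1 : x l / x l0 = Y ((ej n q D).symm (Sum.inl (mono hD l0 l))) /
          Y ((ej n q D).symm (Sum.inl (mono hD l0 l0))) := by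
        rw [hYs, hYs, ver_mono, ver_mono]
        field_simp
      rw [h1]
      refine IntermediateField.subset_adjoin ℂ _ ⟨_, _, ?_, rfl⟩
      rw [hYs, ver_mono]
      exact mul_ne_zero (pow_ne_zero _ hl0') hl0'
    have h1 : ∀ j, b j / x l0 ∈ coords ℂ Y := by
      intro j
      rw [hxb j, Finset.sum_div]
      refine Subalgebra.sum_mem (coords ℂ Y).toSubalgebra fun l _ => ?_
      rw [mul_div_assoc]
      exact mul_mem (IntermediateField.algebraMap_mem _ _) (hq l)
    have h2 : b i / b j = (b i / x l0) / (b j / x l0) := by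
      field_simp
    rw [h2]
    exact div_mem (h1 i) (h1 j)
  obtain ⟨v, hv⟩ := weights (F := rel D F' E) (d := 2) (rel_deg D F' E).form (rel_deg D F' E).le
    hw htr hY0 hgen (fun r => rel_zero hF'h hE x r) (fun P hP i j hi hj hij => by
      obtain ⟨j0, hj0, hmin⟩ := Pool.Agent.W603.GR.exists_min P hb
      obtain ⟨k0, hk0, hkmin⟩ := Pool.Agent.W603.GR.exists_min P hx0
      have hN : Norm P b (P.ord (b j0)) := ⟨fun j hj => hmin j hj, j0, hj0, rfl⟩
      have hc0 := hoff P hP _ hN
      -- the two minima agree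
      have hle : P.ord (x k0) ≤ P.ord (b j0) := by
        have h1 : Pool.Agent.W603.LV.Ge P (P.ord (x k0)) (b j0) := by
          rw [hxb j0]
          refine Pool.Agent.W603.LV.Ge.sum _ _ fun k _ => ?_
          have h2 : Pool.Agent.W603.LV.Ge P (P.ord (x k0)) (x k) := by
            by_cases h : x k = 0
            · exact Or.inl h
            · exact Or.inr (hkmin k h)
          have h3 := (Pool.Agent.W603.LV.Ge.const (P := P) (B j0 k)).mul h2
          rwa [zero_add] at h3
        exact h1.resolve_left hj0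
      have hge : P.ord (b j0) ≤ P.ord (x k0) := by
        have h1 : Pool.Agent.W603.LV.Ge P (P.ord (b j0)) (x k0) := by
          change Pool.Agent.W603.LV.Ge P (P.ord (b j0))
            (∑ l, algebraMap ℂ L (mat ℓ k0 l) * b l)
          refine Pool.Agent.W603.LV.Ge.sum _ _ fun k _ => ?_
          have h2 : Pool.Agent.W603.LV.Ge P (P.ord (b j0)) (b k) := by
            by_cases h : b k = 0
            · exact Or.inl h
            · exact Or.inr (hmin k h)
          have h3 := (Pool.Agent.W603.LV.Ge.const (P := P) (mat ℓ k0 k)).mul h2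
          rwa [zero_add] at h3
        exact h1.resolve_left hk0
      have hcc : P.ord (b j0) = P.ord (x k0) := le_antisymm hge hle
      obtain ⟨i', hi', hle'⟩ := hr P hP _ hN (by
        by_contra hcon
        push Not at hcon
        -- all coordinates have the same order
        have hall : ∀ k, Y k ≠ 0 → P.ord (Y k) = D * P.ord (b j0) := by
          intro k hk
          have hk' : ver D F' E x (ej n q D k) ≠ 0 := hk
          change P.ord (ver D F' E x (ej n q D k)) = _
          revert hk'
          rcases ej n q D k with α | i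
          · intro hk'
            change ∏ j, x j ^ α.1 j ≠ 0 at hk'
            have h1 : ∀ j, α.1 j ≠ 0 → x j ≠ 0 := by
              intro j hj h0
              exact hk' (Finset.prod_eq_zero (Finset.mem_univ j) (by rw [h0, zero_pow hj]))
            change P.ord (∏ j, x j ^ α.1 j) = _
            rw [ord_pow_prod P α.1 h1]
            have h2 : ∀ j, (α.1 j : ℤ) * P.ord (x j) = (α.1 j : ℤ) * P.ord (b j0) := by
              intro j
              by_cases hj : α.1 j = 0
              · rw [hj, Nat.cast_zero, zero_mul, zero_mul]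
              · rw [hcon j (h1 j hj)]
            rw [Finset.sum_congr rfl fun j _ => h2 j, ← Finset.sum_mul]
            congr 1
            have h3 := α.2
            rw [Finsupp.degree_eq_sum] at h3
            exact_mod_cast h3
          · intro hk'
            change aeval x (F' i) ^ E i ≠ 0 at hk'
            change P.ord (aeval x (F' i) ^ E i) = _
            rw [hval] at hk' ⊢
            have hi : i ∉ Z := by
              intro h
              rw [hbZ i h, zero_pow (hE0 i)] at hk'
              exact hk' rfl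
            rw [P.ord_pow, hc0 i hi, ← hE i]
            push_cast
            ring
        exact hij ((hall i hi).trans (hall j hj).symm))
      refine ⟨(ej n q D).symm (Sum.inl (mono hD i' i')),
        (ej n q D).symm (Sum.inl (mono hD k0 k0)), ?_, ?_, ?_⟩
      · rw [hYs, ver_mono]
        exact mul_ne_zero (pow_ne_zero _ hi') hi'
      · rw [hYs, ver_mono]
        exact mul_ne_zero (pow_ne_zero _ hk0) hk0
      · rw [hYs, hYs, ver_mono, ver_mono, ← pow_succ, ← pow_succ, P.ord_pow, P.ord_pow,
          Nat.sub_add_cancel hD, ← mul_sub]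
        have h1 : (mm (nj n q D) 2 : ℤ) ≤ P.ord (x i') - P.ord (x k0) := by
          change P.ord (b j0) + _ ≤ P.ord (x i') at hle'
          omega
        have h2 : (1 : ℤ) ≤ (D : ℤ) := by exact_mod_cast hD
        have h3 : (0 : ℤ) ≤ (mm (nj n q D) 2 : ℤ) := Int.natCast_nonneg _
        nlinarith) hgt
  obtain ⟨w', hw', ⟨i, j, hi, hj, hij⟩, hwc⟩ := bad_bounded (F := rel D F' E) (d := 2)
    (rel_deg D F' E).form (rel_deg D F' E).le hv
  -- a complex point
  set T : Fin (nj n q D + 1) → MvPolynomial (Fin (n + 1)) ℂ := yv D F' E X with hT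
  have hTx : ∀ {S : Type} [CommRing S] [Algebra ℂ S] (s : Fin (n + 1) → S) (k),
      aeval s (T k) = yv D F' E s k := by
    intro S _ _ s k
    rw [hT, yv_map]
    congr 1
    funext l
    exact aeval_X _ _
  obtain ⟨x0, hx1, hx2⟩ := specialise (k := ℂ) x
    (T i * T j * (X l0 * ∏ i ∈ Finset.univ \ Z, F' i)) (by
      rw [map_mul, map_mul, map_mul, map_prod, hTx, hTx, aeval_X]
      refine mul_ne_zero (mul_ne_zero hi hj) (mul_ne_zero hl0' (Finset.prod_ne_zero_iff.2
        fun i hi => ?_))
      rw [hval]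
      exact hbZ' i (Finset.mem_sdiff.1 hi).2)
  rw [map_mul, map_mul, map_mul, map_prod, hTx, hTx, aeval_X] at hx1
  have h1 := left_ne_zero_of_mul hx1
  have h2 := right_ne_zero_of_mul hx1
  have h3 := Finset.prod_ne_zero_iff.1 (right_ne_zero_of_mul h2)
  refine no_special hD hF hE hAB hGm (x := x0)
    (fun h0 => left_ne_zero_of_mul h2 (congrFun h0 l0)) (fun i hi => ?_)
    (fun i hi => h3 i (Finset.mem_sdiff.2 ⟨Finset.mem_univ _, hi⟩)) hw' (left_ne_zero_of_mul h1)
    (right_ne_zero_of_mul h1) (fun h => hij (congrArg (Nat.cast : ℕ → ℤ) h)) ?_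
  · exact hx2 _ (by rw [hval]; exact hbZ i hi)
  · refine onGroup_iff.2 fun e v => ?_
    have h4 : aeval x (aeval T (wc (fun l => (w' l : ℤ)) v (rel D F' E e))) = 0 := by
      rw [← AlgHom.comp_apply, comp_aeval]
      have h5 : (fun k => aeval x (T k)) = Y := funext fun k => hTx x k
      rw [h5]
      exact hwc e v
    have h6 := hx2 _ h4
    rw [← AlgHom.comp_apply, comp_aeval] at h6
    have h7 : (fun k => aeval x0 (T k)) = yv D F' E x0 := funext fun k => hTx x0 k
    rw [h7] at h6
    exact h6

end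

end Run7.h34.GK
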