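import Pool.Agent.Run7.h34.GK.Base

/-!
General hypersurfaces and curves which are highly ramified over hyperplanes: holomorphic maps from
the punctured disc, entire curves, and log general type.
-/

set_option autoImplicit false

namespace Run7.h34.GK

open MvPolynomial Filter Metric Topology Pool.Agent.H159R3.NV
open Pool.Agent.W602.GT Pool.Agent.W603.BP Pool.Agent.TH152.HY Pool.Agent.W602.Cov
  Pool.Agent.W602.Cov.R Pool.Agent.W602.Cov.G Pool.Agent.W601.PH Pool.Agent.W602.Cov.Cover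
open Run7.h34.OK Run7.h34.UG
open Pool.Agent.V1153.UG (GmBdd)

variable {n q : ℕ}

/-- The curve with the homogeneous coordinates `f` over the set `S` is ramified to order at least
`m` over the hyperplanes `ℓ i = 0`: wherever it meets some of the hyperplanes in which it is not
contained, it has a contact of order at least `m` with one of these. -/
def RamifiedCurve (m : ℕ) (ℓ : Fin q → Form n) (S : Set ℂ) (f : ℂ → Fin (n + 1) → ℂ) : Prop :=
  ∀ z ∈ S, (∃ i, (∃ z' ∈ S, ℓ i (f z') ≠ 0) ∧ ℓ i (f z) = 0) →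
    ∃ i, (∃ z' ∈ S, ℓ i (f z') ≠ 0) ∧ (m : ℕ∞) ≤ analyticOrderAt (fun w => ℓ i (f w)) z

/-- The same for a point of `P^n` with the homogeneous coordinates `b` over the field `L`, at a
discrete valuation `P` of `L`, normalised so that the minimum of the orders of the `b j` is `c`. -/
def RamifiedPlace (m : ℕ) (ℓ : Fin q → Form n) {L : Type} [Field L] [Algebra ℂ L]
    (b : Fin (n + 1) → L) (P : FF.Place ℂ L) : Prop :=
  ∀ c : ℤ, Norm P b c → (∃ i, formK (ℓ i) b ≠ 0 ∧ P.ord (formK (ℓ i) b) ≠ c) →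
    ∃ i, formK (ℓ i) b ≠ 0 ∧ c + m ≤ P.ord (formK (ℓ i) b)

/-- ramification of the composite with `sin (1 / w)` -/
theorem ram_sin {m : ℕ} {ℓ : Fin q → Form n} {f : ℂ → Fin (n + 1) → ℂ} (hf : Differentiable ℂ f)
    (hr : RamifiedCurve m ℓ Set.univ f) :
    RamifiedCurve m ℓ (PB 1) fun w => f (Complex.sin w⁻¹) := by
  have hfa : ∀ i, AnalyticOnNhd ℂ (fun z => ℓ i (f z)) Set.univ := fun i z _ =>
    form_an (ℓ i) fun j => ((differentiable_pi.1 hf j).analyticAt z)
  intro w hw hex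
  have hw0 : w ≠ 0 := (mem_disc.2 hw).2
  have hmem : ∀ i, (∃ z' ∈ PB 1, ℓ i (f (Complex.sin z'⁻¹)) ≠ 0) ↔
      ∃ z' ∈ (Set.univ : Set ℂ), ℓ i (f z') ≠ 0 := by
    intro i
    constructor
    · rintro ⟨z', _, h⟩
      exact ⟨_, Set.mem_univ _, h⟩
    · rintro ⟨z', _, h⟩
      obtain ⟨w', hw', h1⟩ := sin_point z'
      exact ⟨w', mem_disc.1 hw', by rw [h1]; exact h⟩
  obtain ⟨i, hi, hle⟩ := hr (Complex.sin w⁻¹) (Set.mem_univ _) (by
    obtain ⟨i, h1, h2⟩ := hex
    exact ⟨i, (hmem i).1 h1, h2⟩)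
  refine ⟨i, (hmem i).2 hi, hle.trans ?_⟩
  have h1 : (fun w => ℓ i (f (Complex.sin w⁻¹))) =
      (fun z => ℓ i (f z)) ∘ fun w : ℂ => Complex.sin w⁻¹ := rfl
  have hsa : AnalyticAt ℂ (fun w : ℂ => Complex.sin w⁻¹) w :=
    Complex.analyticAt_sin.comp (analyticAt_inv hw0)
  rw [h1, (hfa i _ (Set.mem_univ _)).analyticOrderAt_comp hsa]
  have h2 : (1 : ℕ∞) ≤ analyticOrderAt (fun z => Complex.sin z⁻¹ - Complex.sin w⁻¹) w := by
    rw [Order.one_le_iff_ne_zero]
    intro h3
    have h4 := (hsa.sub analyticAt_const).analyticOrderAt_eq_zero.1 h3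
    exact h4 (sub_self _)
  calc analyticOrderAt (fun z => ℓ i (f z)) (Complex.sin w⁻¹)
      = analyticOrderAt (fun z => ℓ i (f z)) (Complex.sin w⁻¹) * 1 := (mul_one _).symm
    _ ≤ _ := mul_le_mul_right h2 _

section

variable {F : MvPolynomial (Fin (n + 1)) ℂ} {d : ℕ} (hd : F.IsHomogeneous d)
  (hF : ∀ P, ¬ GmBdd (Ideal.span {F}) 1 (BB n d) P) {ℓ : Fin (n + 1) → Form n}
  (hℓ : LinearIndependent ℂ ℓ)

include hd hF hℓ

/-- **Holomorphic maps from the punctured disc.** -/
theorem disc_ext {f : ℂ → Fin (n + 1) → ℂ} (hf : ∀ j, AnalyticOnNhd ℂ (fun z => f z j) (PB 1))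
    (hf0 : ∀ z ∈ PB 1, f z ≠ 0) (hfF : ∀ z ∈ PB 1, eval (f z) F = 0)
    (hr : RamifiedCurve (mm n d) ℓ (PB 1) f) : Extends f := by
  classical
  obtain ⟨B, hAB, hBA⟩ := mat_unit hℓ
  have hyf : ∀ z, B.mulVec (fun i => ℓ i (f z)) = f z := by
    intro z
    have h1 : (fun i => ℓ i (f z)) = (mat ℓ).mulVec (f z) := funext fun i => (mat_apply ℓ _ i).symm
    rw [h1, Matrix.mulVec_mulVec, hBA, Matrix.one_mulVec]
  have hya : ∀ i, AnalyticOnNhd ℂ (fun z => ℓ i (f z)) (PB 1) := fun i z hz =>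
    form_an (ℓ i) fun j => hf j z hz
  have hval : ∀ (y : Fin (n + 1) → ℂ), eval y (sub B F) = eval (B.mulVec y) F := by
    intro y
    exact sub_aeval B F y
  by_cases hE : Extends fun z i => ℓ i (f z)
  · obtain ⟨g, hg, hg0, hgf⟩ := hE
    refine ⟨fun z => B.mulVec (g z), ?_, fun w hw h0 => hg0 w hw ?_, fun w hw => ?_⟩
    · rw [differentiableOn_pi]
      intro j
      have : (fun z => B.mulVec (g z) j) = fun z => ∑ k, B j k * g z k := rfl
      rw [this]
      exact DifferentiableOn.fun_sum fun k _ =>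
        (differentiableOn_const _).mul ((differentiableOn_pi.1 hg) k)
    · have h1 : (mat ℓ).mulVec (B.mulVec (g w)) = 0 := by
        rw [show B.mulVec (g w) = 0 from h0, Matrix.mulVec_zero]
      rwa [Matrix.mulVec_mulVec, hAB, Matrix.one_mulVec] at h1
    · obtain ⟨c, hc⟩ := hgf w hw
      refine ⟨c, ?_⟩
      have hc' : (fun i => ℓ i (f w)) = c • g w := hc
      rw [← hyf w, hc', Matrix.mulVec_smul]
  · exfalso
    obtain ⟨w, hw, ⟨i, j, hi, hj, hij⟩, hwc⟩ := disc (F := fun _ : Unit => sub B F) (d := d)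
      (fun _ => ⟨d, sub_hom hd⟩) (fun _ => (sub_hom hd).totalDegree_le)
      (f := fun z i => ℓ i (f z)) hya (fun z hz h0 => hf0 z hz (by
        rw [← hyf z, show (fun i => ℓ i (f z)) = 0 from h0, Matrix.mulVec_zero]))
      (fun z hz _ => by rw [hval, hyf]; exact hfF z hz) (by
        rintro z hz ⟨i, hi, hi0⟩
        obtain ⟨w, hw, hwne⟩ := nz_on one_pos hi
        obtain ⟨i', ⟨w', hw', hwne'⟩, hle⟩ := hr z hz ⟨i, ⟨w, hw, hwne⟩, hi0⟩
        exact ⟨i', nz_of_on (hya i') hw' hwne', hle⟩) hE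
    -- a point at which both coordinates do not vanish
    obtain ⟨z, hz, hzi, hzj⟩ : ∃ z ∈ PB 1, ℓ i (f z) ≠ 0 ∧ ℓ j (f z) ≠ 0 := by
      by_contra hcon
      push Not at hcon
      rcases (hya i).eq_zero_or_eq_zero_of_mul_eq_zero (hya j) (fun z hz => by
        by_cases h : ℓ i (f z) = 0
        · rw [h, zero_mul]
        · rw [hcon z hz h, mul_zero]) (PB_preconn one_pos) with h | h
      · obtain ⟨w, hw, hwne⟩ := nz_on one_pos hi
        exact hwne (h w hw)
      · obtain ⟨w, hw, hwne⟩ := nz_on one_pos hj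
        exact hwne (h w hw)
    refine no_group hF hAB (y := fun i => ℓ i (f z)) hw hzi hzj hij ?_
    exact (onGroup_iff (F := fun _ : Unit => sub B F) (x := fun i => ℓ i (f z))).2
      (fun e v => hwc e v z hz) ()

/-- **Entire curves.** -/
theorem entire_const {f : ℂ → Fin (n + 1) → ℂ} (hf : Differentiable ℂ f) (hf0 : ∀ z, f z ≠ 0)
    (hfF : ∀ z, eval (f z) F = 0) (hr : RamifiedCurve (mm n d) ℓ Set.univ f) (z z' : ℂ) :
    ∃ c : ℂ, f z = c • f z' := by
  by_contra hcon
  push Not at hcon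
  apply sin_not hf hf0 ⟨z, z', hcon⟩
  exact disc_ext hd hF hℓ (an_of_diffOn (sin_diff hf)) (fun w _ => hf0 _) (fun w _ => hfF _)
    (ram_sin hf hr)

/-- **Log general type.** -/
theorem lgt_of {L : Type} [Field L] [Algebra ℂ L] {b : Fin (n + 1) → L} (hb : b ≠ 0)
    (hFb : aeval b F = 0) {w : ℕ} (hw : 0 < w) (htr : Algebra.trdeg ℂ L = w)
    (halg : Algebra.IsAlgebraic
      (IntermediateField.adjoin ℂ {f : L | ∃ i j, b j ≠ 0 ∧ f = b i / b j}) L)
    {Bd : FF.Place ℂ L → Prop} (hr : ∀ P, ¬ Bd P → RamifiedPlace (mm n d) ℓ b P) :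
    LogGeneralType ℂ L w Bd := by
  classical
  obtain ⟨B, hAB, hBA⟩ := mat_unit hℓ
  set y : Fin (n + 1) → L := fun i => formK (ℓ i) b with hy
  have hyb : ∀ j, b j = ∑ k, algebraMap ℂ L (B j k) * y k := by
    intro j
    have h1 : ∀ k, y k = ∑ l, algebraMap ℂ L (mat ℓ k l) * b l := fun k => rfl
    calc b j = ∑ l, algebraMap ℂ L ((B * mat ℓ) j l) * b l := by
          rw [hBA]
          simp [Matrix.one_apply]
      _ = _ := by
          simp only [h1, Matrix.mul_apply, map_sum, map_mul, Finset.sum_mul, Finset.mul_sum]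
          rw [Finset.sum_comm]
          refine Finset.sum_congr rfl fun k _ => Finset.sum_congr rfl fun l _ => by ring
  have hy0 : y ≠ 0 := by
    intro h0
    apply hb
    funext j
    rw [hyb]
    refine Finset.sum_eq_zero fun k _ => ?_
    rw [show y k = 0 from congrFun h0 k, mul_zero]
  have hyF : aeval y (sub B F) = 0 := by
    rw [sub_aeval, ← hFb]
    congr 2
    funext j
    exact (hyb j).symm
  by_contra hgt
  -- the quotients of the coordinates generate the same field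
  have hgen : Algebra.IsAlgebraic (coords ℂ y) L := by
    refine Pool.Agent.TH152.HY.alg_mono ?_ halg
    rw [IntermediateField.adjoin_le_iff]
    rintro _ ⟨i, j, hj, rfl⟩
    obtain ⟨k, hk⟩ := Function.ne_iff.1 hy0
    have hk' : y k ≠ 0 := hk
    have h1 : ∀ j, b j / y k ∈ coords ℂ y := by
      intro j
      rw [hyb j, Finset.sum_div]
      refine Subalgebra.sum_mem (coords ℂ y).toSubalgebra fun l _ => ?_
      rw [mul_div_assoc]
      exact mul_mem (IntermediateField.algebraMap_mem _ _)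
        (IntermediateField.subset_adjoin ℂ _ ⟨l, k, hk', rfl⟩)
    have h2 : b i / b j = (b i / y k) / (b j / y k) := by
      field_simp
    rw [h2]
    exact div_mem (h1 i) (h1 j)
  obtain ⟨v, hv⟩ := weights (F := fun _ : Unit => sub B F) (d := d) (fun _ => ⟨d, sub_hom hd⟩)
    (fun _ => (sub_hom hd).totalDegree_le) hw htr hy0 hgen (fun _ => hyF) (fun P hP i j hi hj hij => by
      obtain ⟨j0, hj0, hmin⟩ := Pool.Agent.W603.GR.exists_min P hb
      obtain ⟨k0, hk0, hkmin⟩ := Pool.Agent.W603.GR.exists_min P hy0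
      have hN : Norm P b (P.ord (b j0)) := ⟨fun j hj => hmin j hj, j0, hj0, rfl⟩
      -- the two minima agree
      have hle : P.ord (y k0) ≤ P.ord (b j0) := by
        have h1 : Pool.Agent.W603.LV.Ge P (P.ord (y k0)) (b j0) := by
          rw [hyb j0]
          refine Pool.Agent.W603.LV.Ge.sum _ _ fun k _ => ?_
          have h2 : Pool.Agent.W603.LV.Ge P (P.ord (y k0)) (y k) := by
            by_cases h : y k = 0
            · exact Or.inl h
            · exact Or.inr (hkmin k h)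
          have h3 := (Pool.Agent.W603.LV.Ge.const (P := P) (B j0 k)).mul h2
          rwa [zero_add] at h3
        exact h1.resolve_left hj0
      obtain ⟨i', hi', hle'⟩ := hr P hP _ hN (by
        by_contra hcon
        push Not at hcon
        exact hij ((hcon i hi).trans (hcon j hj).symm))
      refine ⟨i', k0, hi', hk0, ?_⟩
      change _ ≤ P.ord (formK (ℓ i') b) - _
      omega) hgt
  obtain ⟨w', hw', ⟨i, j, hi, hj, hij⟩, hwc⟩ := bad_bounded (F := fun _ : Unit => sub B F)
    (d := d) (fun _ => ⟨d, sub_hom hd⟩) (fun _ => (sub_hom hd).totalDegree_le) hv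
  obtain ⟨x, hx, hx0⟩ := specialise (k := ℂ) y (X i * X j) (by
    rw [map_mul, aeval_X, aeval_X]
    exact mul_ne_zero hi hj)
  rw [map_mul, aeval_X, aeval_X] at hx
  refine no_group hF hAB hw' (left_ne_zero_of_mul hx) (right_ne_zero_of_mul hx)
    (fun h => hij (congrArg (Nat.cast : ℕ → ℤ) h)) ?_
  refine (onGroup_iff (F := fun _ : Unit => sub B F) (x := x)).2 (fun e v => ?_) ()
  exact hx0 _ (hwc e v)

end

/-- hyperplanes without common points -/
theorem lin_of {ℓ : Fin (n + 1) → Form n} (h : ∀ x, (∀ i, ℓ i x = 0) → x = 0) :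
    LinearIndependent ℂ ℓ := by
  have h1 : Function.Injective (mat ℓ).mulVec := by
    intro u v huv
    rw [← sub_eq_zero]
    refine h _ fun i => ?_
    rw [map_sub, ← mat_apply, ← mat_apply, huv, sub_self]
  have h2 : IsUnit (mat ℓ) := Matrix.mulVec_injective_iff_isUnit.1 h1
  have h3 := Matrix.linearIndependent_rows_iff_isUnit.2 h2
  have h4 : LinearIndependent ℂ ((fun φ : Form n => fun j : Fin (n + 1) =>
      φ (Pi.single j 1)) ∘ ℓ) := h3
  exact LinearIndependent.of_comp
    ({ toFun := fun φ j => φ (Pi.single j 1)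
       map_add' := fun _ _ => rfl
       map_smul' := fun _ _ => rfl } : Form n →ₗ[ℂ] (Fin (n + 1) → ℂ)) h4

end Run7.h34.GK
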